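import Mathlib

/-!
# Row ONE of theorem OCM (section 5, pure)

Scales `i < n`, for each scale a law `P i` of partner times, a real function `φ` of the time (the
value of the covector of one row on the slope between the base time and the partner). If
`φ a = - φ b` up to `ε` for most partners whose scales have their sum in a set `F` which is dense
in every block of length `n / q`, then `φ = 0` up to `C ε` for most partners.
-/

set_option autoImplicit false

namespace Pool.OCM

open Finset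

universe u

section Basic

variable {T : Type u} [Fintype T]

open Classical in
/-- The mass of a condition. -/
noncomputable def ms (p : T → ℝ) (s : T → Prop) : ℝ := ∑ t, if s t then p t else 0

/-- The mass of the pairs of the scales `i`, `j` on which `φ a + φ b` is not small. -/
noncomputable def beta {E : Type*} [SeminormedAddCommGroup E] (P : ℕ → T → ℝ) (φ : T → E) (ε : ℝ)
    (i j : ℕ) : ℝ :=
  ∑ b, P j b * ms (P i) (fun a => ε < ‖φ a + φ b‖)

lemma ms_nonneg {p : T → ℝ} (h0 : ∀ t, 0 ≤ p t) (s : T → Prop) : 0 ≤ ms p s := by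
  unfold ms
  refine sum_nonneg fun t _ => ?_
  split_ifs
  · exact h0 t
  · exact le_refl _

lemma ms_mono {p : T → ℝ} (h0 : ∀ t, 0 ≤ p t) {s s' : T → Prop} (h : ∀ t, s t → s' t) :
    ms p s ≤ ms p s' := by
  unfold ms
  refine sum_le_sum fun t _ => ?_
  by_cases h1 : s t
  · rw [if_pos h1, if_pos (h t h1)]
  · rw [if_neg h1]
    split_ifs
    · exact h0 t
    · exact le_refl _

lemma ms_le_one {p : T → ℝ} (h0 : ∀ t, 0 ≤ p t) (h1 : ∑ t, p t = 1) (s : T → Prop) :
    ms p s ≤ 1 := by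
  rw [← h1]
  unfold ms
  refine sum_le_sum fun t _ => ?_
  split_ifs
  · exact le_refl _
  · exact h0 t

lemma ms_add {p : T → ℝ} (h1 : ∑ t, p t = 1) (s : T → Prop) :
    ms p s + ms p (fun t => ¬ s t) = 1 := by
  rw [← h1]
  unfold ms
  rw [← sum_add_distrib]
  refine sum_congr rfl fun t _ => ?_
  by_cases h : s t <;> simp [h]

/-- Two conditions of total mass less than one have a common counterexample. -/
lemma ms_ex {p : T → ℝ} (h1 : ∑ t, p t = 1) {s s' : T → Prop}
    (h : ms p s + ms p s' < 1) (h0 : ∀ t, 0 ≤ p t) : ∃ t, ¬ s t ∧ ¬ s' t := by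
  by_contra hc
  push Not at hc
  have h2 : ms p (fun t => ¬ s t) ≤ ms p s' := ms_mono h0 hc
  have h3 := ms_add h1 s
  linarith only [h, h2, h3]

lemma ms_smul_le {p p' : T → ℝ} {K : ℝ} (h : ∀ t, p' t ≤ K * p t) (s : T → Prop) :
    ms p' s ≤ K * ms p s := by
  unfold ms
  rw [mul_sum]
  refine sum_le_sum fun t _ => ?_
  by_cases h1 : s t
  · rw [if_pos h1, if_pos h1]; exact h t
  · rw [if_neg h1, if_neg h1, mul_zero]

lemma avg_ex {q f : T → ℝ} (h0 : ∀ t, 0 ≤ q t) (h1 : ∑ t, q t = 1) {d : ℝ}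
    (h : ∑ t, q t * f t ≤ d) : ∃ t, f t ≤ d := by
  by_contra hc
  push Not at hc
  have h2 : d = ∑ t, q t * d := by rw [← sum_mul, h1, one_mul]
  have h3 : ∑ t, q t * d < ∑ t, q t * f t := by
    have hne : ∃ t, 0 < q t := by
      by_contra hq
      push Not at hq
      have : ∑ t, q t ≤ 0 := sum_nonpos fun t _ => hq t
      linarith
    obtain ⟨t, ht⟩ := hne
    refine sum_lt_sum (fun s _ => mul_le_mul_of_nonneg_left (hc s).le (h0 s)) ⟨t, mem_univ _, ?_⟩
    exact mul_lt_mul_of_pos_left (hc t) ht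
  linarith

variable {E : Type*} [SeminormedAddCommGroup E] {P : ℕ → T → ℝ} {φ : T → E} {ε : ℝ}

lemma beta_nonneg {i j : ℕ} (hi : ∀ t, 0 ≤ P i t) (hj : ∀ t, 0 ≤ P j t) :
    0 ≤ beta P φ ε i j :=
  sum_nonneg fun b _ => mul_nonneg (hj b) (ms_nonneg hi _)

/-- A scale with a good partner has a mode. -/
lemma mode {i j : ℕ} {d : ℝ} (hj : ∀ t, 0 ≤ P j t) (hj1 : ∑ t, P j t = 1)
    (h : beta P φ ε i j ≤ d) : ∃ μ : E, ms (P i) (fun a => ε < ‖φ a - μ‖) ≤ d := by
  obtain ⟨b, hb⟩ := avg_ex hj hj1 h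
  refine ⟨- φ b, ?_⟩
  simpa [sub_neg_eq_add] using hb

/-- Two scales with a common good partner have close modes. -/
lemma mode_close {i i' j : ℕ} {d : ℝ} {μ μ' : E} (hi : ∀ t, 0 ≤ P i t) (hi1 : ∑ t, P i t = 1)
    (hi' : ∀ t, 0 ≤ P i' t) (hi'1 : ∑ t, P i' t = 1)
    (hj : ∀ t, 0 ≤ P j t) (hj1 : ∑ t, P j t = 1) (hd : 3 * d < 1)
    (h : beta P φ ε i j ≤ d) (h' : beta P φ ε i' j ≤ d)
    (hμ : ms (P i) (fun a => ε < ‖φ a - μ‖) ≤ d)
    (hμ' : ms (P i') (fun a => ε < ‖φ a - μ'‖) ≤ d) : ‖μ - μ'‖ ≤ 4 * ε := by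
  have h2 : ∑ b, P j b * (ms (P i) (fun a => ε < ‖φ a + φ b‖) +
      ms (P i') (fun a => ε < ‖φ a + φ b‖)) ≤ 2 * d := by
    have : ∑ b, P j b * (ms (P i) (fun a => ε < ‖φ a + φ b‖) +
        ms (P i') (fun a => ε < ‖φ a + φ b‖)) = beta P φ ε i j + beta P φ ε i' j := by
      unfold beta
      rw [← sum_add_distrib]
      exact sum_congr rfl fun b _ => by ring
    linarith
  obtain ⟨b, hb⟩ := avg_ex hj hj1 h2
  have n1 := ms_nonneg hi (fun a => ε < ‖φ a + φ b‖)
  have n2 := ms_nonneg hi' (fun a => ε < ‖φ a + φ b‖)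
  obtain ⟨a, ha1, ha2⟩ := ms_ex (s := fun a => ε < ‖φ a + φ b‖) (s' := fun a => ε < ‖φ a - μ‖)
    hi1 (by linarith only [hd, hμ, hb, n2]) hi
  obtain ⟨a', ha1', ha2'⟩ := ms_ex (s := fun a => ε < ‖φ a + φ b‖)
    (s' := fun a => ε < ‖φ a - μ'‖) hi'1 (by linarith only [hd, hμ', hb, n1]) hi'
  simp only [not_lt] at ha1 ha2 ha1' ha2'
  have e1 : μ - μ' = ((φ a + φ b) - (φ a - μ)) - ((φ a' + φ b) - (φ a' - μ')) := by abel
  rw [e1]
  have k1 := norm_sub_le ((φ a + φ b) - (φ a - μ)) ((φ a' + φ b) - (φ a' - μ'))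
  have k2 := norm_sub_le (φ a + φ b) (φ a - μ)
  have k3 := norm_sub_le (φ a' + φ b) (φ a' - μ')
  linarith only [ha1, ha2, ha1', ha2', k1, k2, k3]

/-- The modes of a good pair are opposite. -/
lemma mode_opp {i j : ℕ} {d : ℝ} {μ μ' : E} (hi : ∀ t, 0 ≤ P i t) (hi1 : ∑ t, P i t = 1)
    (hj : ∀ t, 0 ≤ P j t) (hj1 : ∑ t, P j t = 1) (hd : 3 * d < 1)
    (h : beta P φ ε i j ≤ d)
    (hμ : ms (P i) (fun a => ε < ‖φ a - μ‖) ≤ d)
    (hμ' : ms (P j) (fun a => ε < ‖φ a - μ'‖) ≤ d) : ‖μ + μ'‖ ≤ 3 * ε := by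
  have hd0 : 0 ≤ d := le_trans (beta_nonneg hi hj) h
  by_contra hc
  push Not at hc
  -- all the pairs of typical samples are bad
  have h1 : ∀ b, ¬ (ε < ‖φ b - μ'‖) → 1 - d ≤ ms (P i) (fun a => ε < ‖φ a + φ b‖) := by
    intro b hb
    have h2 : ms (P i) (fun a => ¬ (ε < ‖φ a - μ‖)) ≤ ms (P i) (fun a => ε < ‖φ a + φ b‖) := by
      refine ms_mono hi fun a ha => ?_
      simp only [not_lt] at ha hb
      by_contra hcc
      simp only [not_lt] at hcc
      have e1 : μ + μ' = (φ a + φ b) - (φ a - μ) - (φ b - μ') := by abel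
      rw [e1] at hc
      have k1 := norm_sub_le ((φ a + φ b) - (φ a - μ)) (φ b - μ')
      have k2 := norm_sub_le (φ a + φ b) (φ a - μ)
      linarith only [hc, ha, hb, hcc, k1, k2]
    have h3 := ms_add hi1 (fun a => ε < ‖φ a - μ‖)
    linarith only [hμ, h2, h3]
  have h4 : (1 - d) * ms (P j) (fun b => ¬ (ε < ‖φ b - μ'‖)) ≤ beta P φ ε i j := by
    unfold beta
    rw [ms, mul_sum]
    refine sum_le_sum fun b _ => ?_
    by_cases hb : ε < ‖φ b - μ'‖
    · rw [if_neg (by simpa using hb), mul_zero]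
      exact mul_nonneg (hj b) (ms_nonneg hi _)
    · rw [if_pos (by simpa using hb), mul_comm]
      exact mul_le_mul_of_nonneg_left (h1 b hb) (hj b)
  have h5 := ms_add hj1 (fun b => ε < ‖φ b - μ'‖)
  have h6 : 1 - d ≤ ms (P j) (fun b => ¬ (ε < ‖φ b - μ'‖)) := by linarith only [hμ', h5]
  have h7 : (1 - d) * (1 - d) ≤ (1 - d) * ms (P j) (fun b => ¬ (ε < ‖φ b - μ'‖)) :=
    mul_le_mul_of_nonneg_left h6 (by linarith only [hd])
  nlinarith only [hd, h, h4, h7]

/-- The modes of neighbouring scales are close. -/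
lemma mode_next {i : ℕ} {d : ℝ} {μ μ' : E} (hi' : ∀ t, 0 ≤ P (i + 1) t) (hi'1 : ∑ t, P (i + 1) t = 1)
    (hd : 4 * d < 1) (hP : ∀ t, P (i + 1) t ≤ 3 * P i t)
    (hμ : ms (P i) (fun a => ε < ‖φ a - μ‖) ≤ d)
    (hμ' : ms (P (i + 1)) (fun a => ε < ‖φ a - μ'‖) ≤ d) : ‖μ - μ'‖ ≤ 2 * ε := by
  have h1 := ms_smul_le hP (fun a => ε < ‖φ a - μ‖)
  obtain ⟨a, ha1, ha2⟩ := ms_ex (s := fun a => ε < ‖φ a - μ‖) (s' := fun a => ε < ‖φ a - μ'‖)
    hi'1 (by linarith only [hd, hμ, hμ', h1]) hi'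
  simp only [not_lt] at ha1 ha2
  have e1 : μ - μ' = (φ a - μ') - (φ a - μ) := by abel
  rw [e1]
  have k1 := norm_sub_le (φ a - μ') (φ a - μ)
  linarith only [ha1, ha2, k1]

end Basic

section Comb

/-- The partners of the scale `x`. -/
def nb (F : Finset ℕ) (n x : ℕ) : Finset ℕ := (range n).filter (fun y => x + y ∈ F)

lemma mem_nb {F : Finset ℕ} {n x y : ℕ} : y ∈ nb F n x ↔ y < n ∧ x + y ∈ F := by
  simp [nb]

/-- Common partners move with the scales. -/
lemma nb_shift_up (F : Finset ℕ) (n x d s : ℕ) :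
    (nb F n x ∩ nb F n (x + d)).card ≤ (nb F n (x + s) ∩ nb F n (x + s + d)).card + s := by
  classical
  have h1 : (nb F n x ∩ nb F n (x + d)) ⊆
      ((nb F n (x + s) ∩ nb F n (x + s + d)).image (fun y => y + s)) ∪ range s := by
    intro y hy
    rw [mem_inter, mem_nb, mem_nb] at hy
    rw [mem_union, mem_image, mem_range]
    by_cases hs : y < s
    · exact Or.inr hs
    · left
      refine ⟨y - s, ?_, by omega⟩
      rw [mem_inter, mem_nb, mem_nb]
      refine ⟨⟨by omega, ?_⟩, by omega, ?_⟩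
      · have : x + s + (y - s) = x + y := by omega
        rw [this]; exact hy.1.2
      · have : x + s + d + (y - s) = x + d + y := by omega
        rw [this]; exact hy.2.2
  calc (nb F n x ∩ nb F n (x + d)).card
      ≤ _ := card_le_card h1
    _ ≤ _ := card_union_le _ _
    _ ≤ _ := by rw [card_range]; exact Nat.add_le_add_right card_image_le _

lemma nb_shift_down (F : Finset ℕ) (n x d s : ℕ) :
    (nb F n (x + s) ∩ nb F n (x + s + d)).card ≤ (nb F n x ∩ nb F n (x + d)).card + s := by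
  classical
  have h1 : ((nb F n (x + s) ∩ nb F n (x + s + d)).image (fun y => y + s)) ⊆
      (nb F n x ∩ nb F n (x + d)) ∪ Ico n (n + s) := by
    intro z hz
    rw [mem_image] at hz
    obtain ⟨y, hy, rfl⟩ := hz
    rw [mem_inter, mem_nb, mem_nb] at hy
    rw [mem_union, mem_inter, mem_nb, mem_nb, mem_Ico]
    by_cases hs : y + s < n
    · left
      refine ⟨⟨hs, ?_⟩, hs, ?_⟩
      · have : x + (y + s) = x + s + y := by omega
        rw [this]; exact hy.1.2
      · have : x + d + (y + s) = x + s + d + y := by omega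
        rw [this]; exact hy.2.2
    · right
      omega
  have h2 : ((nb F n (x + s) ∩ nb F n (x + s + d)).image (fun y => y + s)).card =
      (nb F n (x + s) ∩ nb F n (x + s + d)).card :=
    card_image_of_injective _ (fun a b h => by simpa using h)
  rw [← h2]
  calc _ ≤ _ := card_le_card h1
    _ ≤ _ := card_union_le _ _
    _ ≤ _ := by simp

/-- Among `K + 1` large subsets of `[0,n)` two have a large intersection. -/
lemma two_inter {n K : ℕ} {c : ℝ} (hn : 0 < n) (hc : 0 < c) (hK : 2 ≤ c ^ 2 * (K + 1))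
    (N : ℕ → Finset ℕ) (hN : ∀ k ≤ K, N k ⊆ range n) (hc' : ∀ k ≤ K, c * n ≤ ((N k).card : ℝ)) :
    ∃ k l, k < l ∧ l ≤ K ∧ c ^ 2 / 2 * n ≤ ((N k ∩ N l).card : ℝ) := by
  classical
  by_contra hcon
  push Not at hcon
  have hn' : (0 : ℝ) < n := by exact_mod_cast hn
  set f : ℕ → ℝ := fun y => ∑ k ∈ range (K + 1), if y ∈ N k then 1 else 0 with hf
  have h1 : (∑ y ∈ range n, f y) ^ 2 ≤ (n : ℝ) * ∑ y ∈ range n, f y ^ 2 := by
    have := sq_sum_le_card_mul_sum_sq (s := range n) (f := f)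
    simpa using this
  have h2 : ((K : ℝ) + 1) * (c * n) ≤ ∑ y ∈ range n, f y := by
    rw [hf, sum_comm]
    have : ∀ k ∈ range (K + 1), c * n ≤ ∑ y ∈ range n, (if y ∈ N k then (1 : ℝ) else 0) := by
      intro k hk
      rw [mem_range] at hk
      rw [sum_ite_mem, inter_eq_right.mpr (hN k (by omega))]
      simpa using hc' k (by omega)
    calc ((K : ℝ) + 1) * (c * n) = ∑ k ∈ range (K + 1), c * n := by simp
      _ ≤ _ := sum_le_sum this
  have h3 : ∑ y ∈ range n, f y ^ 2 ≤ ((K : ℝ) + 1) * n + ((K : ℝ) + 1) * K * (c ^ 2 / 2 * n) := by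
    have h4 : ∑ y ∈ range n, f y ^ 2 =
        ∑ k ∈ range (K + 1), ∑ l ∈ range (K + 1), ((N k ∩ N l).card : ℝ) := by
      have : ∀ y ∈ range n, f y ^ 2 = ∑ k ∈ range (K + 1), ∑ l ∈ range (K + 1),
          (if y ∈ N k ∩ N l then (1 : ℝ) else 0) := by
        intro y _
        rw [hf, sq, sum_mul_sum]
        refine sum_congr rfl fun k _ => sum_congr rfl fun l _ => ?_
        by_cases h1 : y ∈ N k <;> by_cases h2 : y ∈ N l <;> simp [h1, h2]
      rw [sum_congr rfl this, sum_comm]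
      refine sum_congr rfl fun k hk => ?_
      rw [sum_comm]
      refine sum_congr rfl fun l hl => ?_
      rw [mem_range] at hk
      rw [sum_ite_mem, inter_eq_right.mpr (inter_subset_left.trans (hN k (by omega)))]
      simp
    rw [h4]
    have h5 : ∀ k ∈ range (K + 1), ∑ l ∈ range (K + 1), ((N k ∩ N l).card : ℝ) ≤
        n + K * (c ^ 2 / 2 * n) := by
      intro k hk
      have hk' := mem_range.mp hk
      rw [← add_sum_erase _ _ hk]
      refine add_le_add ?_ ?_
      · have : (N k ∩ N k).card ≤ n := by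
          rw [inter_self]
          have := card_le_card (hN k (by omega))
          simpa using this
        exact_mod_cast this
      · have h6 : ∀ l ∈ (range (K + 1)).erase k, ((N k ∩ N l).card : ℝ) ≤ c ^ 2 / 2 * n := by
          intro l hl
          rw [mem_erase, mem_range] at hl
          rcases lt_or_gt_of_ne hl.1 with h | h
          · have := hcon l k h (by omega)
            rw [inter_comm]
            exact this.le
          · exact (hcon k l h (by omega)).le
        calc _ ≤ ∑ _l ∈ (range (K + 1)).erase k, c ^ 2 / 2 * (n : ℝ) := sum_le_sum h6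
          _ = K * (c ^ 2 / 2 * n) := by
            rw [sum_const, card_erase_of_mem hk, card_range]
            simp
    calc _ ≤ ∑ _k ∈ range (K + 1), ((n : ℝ) + K * (c ^ 2 / 2 * n)) := sum_le_sum h5
      _ = _ := by rw [sum_const, card_range, nsmul_eq_mul]; push_cast; ring
  exact by
   have hK0 : (0 : ℝ) ≤ K := by positivity
   have h7 : (((K : ℝ) + 1) * (c * n)) ^ 2 ≤ (∑ y ∈ range n, f y) ^ 2 :=
     pow_le_pow_left₀ (by positivity) h2 2
   have h8 : (((K : ℝ) + 1) * (c * n)) ^ 2 ≤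
       (n : ℝ) * (((K : ℝ) + 1) * n + ((K : ℝ) + 1) * K * (c ^ 2 / 2 * n)) :=
     h7.trans (h1.trans (mul_le_mul_of_nonneg_left h3 hn'.le))
   have h9 : ((K : ℝ) + 1) * n ^ 2 * (((K : ℝ) + 1) * c ^ 2) ≤
       ((K : ℝ) + 1) * n ^ 2 * (1 + K * (c ^ 2 / 2)) := by nlinarith only [h8]
   have h10 : ((K : ℝ) + 1) * c ^ 2 ≤ 1 + K * (c ^ 2 / 2) :=
     le_of_mul_le_mul_left h9 (by positivity)
   nlinarith only [hK, h10, hc, sq_nonneg c, sq_pos_of_pos hc]

end Comb

section Main

variable {T : Type u} [Fintype T] {E : Type*} [SeminormedAddCommGroup E]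

lemma nb_add (F : Finset ℕ) (a b x : ℕ) :
    (nb F (a + b) x).card = (nb F a x).card + (nb F b (x + a)).card := by
  unfold nb
  rw [card_filter, card_filter, card_filter, sum_range_add]
  simp [add_assoc]

lemma nb_mono (F : Finset ℕ) {a b : ℕ} (h : a ≤ b) (x : ℕ) : nb F a x ⊆ nb F b x := by
  intro y hy
  rw [mem_nb] at *
  exact ⟨by omega, hy.2⟩

/-- Blocks. -/
lemma nb_blocks {F : Finset ℕ} {L n : ℕ} {c : ℝ}
    (h : ∀ x, x + L ≤ 2 * n → c * L ≤ ((nb F L x).card : ℝ)) (q x : ℕ)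
    (hx : x + q * L ≤ 2 * n) : c * (q * L) ≤ ((nb F (q * L) x).card : ℝ) := by
  induction q with
  | zero => simp
  | succ k ih =>
    have h1 : (k + 1) * L = k * L + L := by ring
    rw [h1] at hx ⊢
    rw [nb_add]
    have h2 := ih (by omega)
    have h3 := h (x + k * L) (by omega)
    push_cast
    linarith only [h2, h3]

open Classical in
/-- The exceptional scales. -/
noncomputable def exc (P : ℕ → T → ℝ) (φ : T → E) (ε : ℝ) (F : Finset ℕ) (n : ℕ) (d : ℝ) :
    Finset ℕ :=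
  (range n).filter (fun i => (¬ ∀ t, P (i + 1) t ≤ 3 * P i t) ∨
    d * n < (((nb F n i).filter (fun j => d < beta P φ ε i j)).card : ℝ))

variable {P : ℕ → T → ℝ} {φ : T → E} {ε : ℝ} {F : Finset ℕ} {n : ℕ} {d δ : ℝ}

open Classical in
lemma exc_card (h0 : ∀ i < n, ∀ t, 0 ≤ P i t) (hn : 0 < n) (hd : 0 < d)
    (hR : ∑ i ∈ range n, ∑ j ∈ range n, (if i + j ∈ F then beta P φ ε i j else 0) ≤ δ * n ^ 2)
    (hC : (((range n).filter (fun i => ¬ ∀ t, P (i + 1) t ≤ 3 * P i t)).card : ℝ) ≤ δ * n) :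
    ((exc P φ ε F n d).card : ℝ) ≤ (δ + δ / d ^ 2) * n := by
  set A := (range n).filter (fun i => ¬ ∀ t, P (i + 1) t ≤ 3 * P i t) with hA
  set B := (range n).filter (fun i =>
    d * n < (((nb F n i).filter (fun j => d < beta P φ ε i j)).card : ℝ)) with hB
  have hn' : (0 : ℝ) < n := by exact_mod_cast hn
  have h1 : exc P φ ε F n d ⊆ A ∪ B := by
    intro i hi
    rw [exc, mem_filter] at hi
    rw [mem_union, hA, hB, mem_filter, mem_filter]
    rcases hi.2 with h | h
    · exact Or.inl ⟨hi.1, h⟩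
    · exact Or.inr ⟨hi.1, h⟩
  have h2 : ((exc P φ ε F n d).card : ℝ) ≤ A.card + B.card := by
    have := (card_le_card h1).trans (card_union_le A B)
    exact_mod_cast this
  have h3 : ∀ i ∈ B, d * (d * n) ≤ ∑ j ∈ range n, (if i + j ∈ F then beta P φ ε i j else 0) := by
    intro i hi
    rw [hB, mem_filter, mem_range] at hi
    have h4 : ∑ j ∈ (nb F n i).filter (fun j => d < beta P φ ε i j), d ≤
        ∑ j ∈ (nb F n i).filter (fun j => d < beta P φ ε i j), beta P φ ε i j :=
      sum_le_sum fun j hj => by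
        rw [mem_filter] at hj
        exact hj.2.le
    have h5 : ∑ j ∈ (nb F n i).filter (fun j => d < beta P φ ε i j), beta P φ ε i j ≤
        ∑ j ∈ nb F n i, beta P φ ε i j := by
      refine sum_le_sum_of_subset_of_nonneg (filter_subset _ _) fun j hj _ => ?_
      rw [mem_nb] at hj
      exact beta_nonneg (h0 i hi.1) (h0 j hj.1)
    have h6 : ∑ j ∈ nb F n i, beta P φ ε i j =
        ∑ j ∈ range n, (if i + j ∈ F then beta P φ ε i j else 0) := by
      rw [nb, sum_filter]
    rw [sum_const, nsmul_eq_mul] at h4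
    rw [← h6]
    calc d * (d * n) ≤ d * (((nb F n i).filter (fun j => d < beta P φ ε i j)).card : ℝ) :=
          mul_le_mul_of_nonneg_left hi.2.le hd.le
      _ ≤ _ := by linarith only [h4, h5]
  have h4 : (B.card : ℝ) * (d * (d * n)) ≤ δ * n ^ 2 := by
    refine le_trans ?_ hR
    calc (B.card : ℝ) * (d * (d * n)) = ∑ _i ∈ B, d * (d * n) := by simp
      _ ≤ ∑ i ∈ B, ∑ j ∈ range n, (if i + j ∈ F then beta P φ ε i j else 0) := sum_le_sum h3
      _ ≤ _ := by
        refine sum_le_sum_of_subset_of_nonneg (filter_subset _ _) fun i hi _ => ?_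
        refine sum_nonneg fun j hj => ?_
        rw [mem_range] at hi hj
        split_ifs
        · exact beta_nonneg (h0 i hi) (h0 j hj)
        · exact le_refl _
  have h5 : (B.card : ℝ) ≤ δ / d ^ 2 * n := by
    rw [div_mul_eq_mul_div, le_div_iff₀ (by positivity)]
    have : (B.card : ℝ) * d ^ 2 * n ≤ δ * n * n := by nlinarith only [h4]
    exact le_of_mul_le_mul_right this hn'
  calc ((exc P φ ε F n d).card : ℝ) ≤ A.card + B.card := h2
    _ ≤ δ * n + δ / d ^ 2 * n := add_le_add hC h5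
    _ = _ := by ring

/-- Good scales. -/
def Gd (P : ℕ → T → ℝ) (φ : T → E) (ε : ℝ) (F : Finset ℕ) (n : ℕ) (d : ℝ) (i : ℕ) : Prop :=
  i < n ∧ i ∉ exc P φ ε F n d

open Classical in
lemma Gd.few {i : ℕ} (h : Gd P φ ε F n d i) :
    (((nb F n i).filter (fun j => d < beta P φ ε i j)).card : ℝ) ≤ d * n := by
  have h1 := h.2
  rw [exc, mem_filter, mem_range] at h1
  push Not at h1
  exact (h1 h.1).2

lemma Gd.nxt {i : ℕ} (h : Gd P φ ε F n d i) : ∀ t, P (i + 1) t ≤ 3 * P i t := by
  have h1 := h.2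
  rw [exc, mem_filter, mem_range] at h1
  push Not at h1
  exact (h1 h.1).1

/-- The mode of a scale. -/
noncomputable def md (P : ℕ → T → ℝ) (φ : T → E) (ε d : ℝ) (i : ℕ) : E := by
  classical exact if h : ∃ μ : E, ms (P i) (fun a => ε < ‖φ a - μ‖) ≤ d then h.choose else 0

lemma md_spec {i : ℕ} (h : ∃ μ : E, ms (P i) (fun a => ε < ‖φ a - μ‖) ≤ d) :
    ms (P i) (fun a => ε < ‖φ a - md P φ ε d i‖) ≤ d := by
  unfold md
  rw [dif_pos h]
  exact h.choose_spec

section Facts

variable (h0 : ∀ i < n, ∀ t, 0 ≤ P i t) (h1 : ∀ i < n, ∑ t, P i t = 1)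

include h0 h1

lemma Gd.md {i : ℕ} (h : Gd P φ ε F n d i) (hN : d * n < ((nb F n i).card : ℝ)) :
    ms (P i) (fun a => ε < ‖φ a - Pool.OCM.md P φ ε d i‖) ≤ d := by
  classical
  refine md_spec ?_
  have h2 : ∃ j ∈ nb F n i, beta P φ ε i j ≤ d := by
    by_contra hc
    push Not at hc
    have h3 : nb F n i ⊆ (nb F n i).filter (fun j => d < beta P φ ε i j) := by
      intro j hj
      rw [mem_filter]
      exact ⟨hj, hc j hj⟩
    have h4 : ((nb F n i).card : ℝ) ≤ (((nb F n i).filter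
        (fun j => d < beta P φ ε i j)).card : ℝ) := by exact_mod_cast card_le_card h3
    have h5 := h.few
    linarith
  obtain ⟨j, hj, hb⟩ := h2
  rw [mem_nb] at hj
  exact mode (h0 j hj.1) (h1 j hj.1) hb

lemma close_of_common {i i' : ℕ} (h : Gd P φ ε F n d i) (h' : Gd P φ ε F n d i') (hd : 3 * d < 1)
    (hN : d * n < ((nb F n i).card : ℝ)) (hN' : d * n < ((nb F n i').card : ℝ))
    (hc : 2 * (d * n) < ((nb F n i ∩ nb F n i').card : ℝ)) :
    ‖Pool.OCM.md P φ ε d i - Pool.OCM.md P φ ε d i'‖ ≤ 4 * ε := by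
  classical
  have h2 : ∃ j ∈ nb F n i ∩ nb F n i', beta P φ ε i j ≤ d ∧ beta P φ ε i' j ≤ d := by
    by_contra hcc
    push Not at hcc
    have h3 : nb F n i ∩ nb F n i' ⊆ (nb F n i).filter (fun j => d < beta P φ ε i j) ∪
        (nb F n i').filter (fun j => d < beta P φ ε i' j) := by
      intro j hj
      have hj' := hj
      rw [mem_inter] at hj'
      rw [mem_union, mem_filter, mem_filter]
      by_cases hb : beta P φ ε i j ≤ d
      · exact Or.inr ⟨hj'.2, hcc j hj hb⟩
      · exact Or.inl ⟨hj'.1, not_le.mp hb⟩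
    have h4 := (card_le_card h3).trans (card_union_le _ _)
    have h5 : ((nb F n i ∩ nb F n i').card : ℝ) ≤
        (((nb F n i).filter (fun j => d < beta P φ ε i j)).card : ℝ) +
        (((nb F n i').filter (fun j => d < beta P φ ε i' j)).card : ℝ) := by exact_mod_cast h4
    have h6 := h.few
    have h7 := h'.few
    linarith only [hc, h5, h6, h7]
  obtain ⟨j, hj, hb, hb'⟩ := h2
  rw [mem_inter, mem_nb, mem_nb] at hj
  exact mode_close (h0 i h.1) (h1 i h.1) (h0 i' h'.1) (h1 i' h'.1) (h0 j hj.1.1) (h1 j hj.1.1) hd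
    hb hb' (h.md h0 h1 hN) (h'.md h0 h1 hN')

lemma close_next {i : ℕ} (h : Gd P φ ε F n d i) (h' : Gd P φ ε F n d (i + 1)) (hd : 4 * d < 1)
    (hN : d * n < ((nb F n i).card : ℝ)) (hN' : d * n < ((nb F n (i + 1)).card : ℝ)) :
    ‖Pool.OCM.md P φ ε d i - Pool.OCM.md P φ ε d (i + 1)‖ ≤ 2 * ε :=
  mode_next (h0 _ h'.1) (h1 _ h'.1) hd h.nxt (h.md h0 h1 hN) (h'.md h0 h1 hN')

lemma opp_of_good {i j : ℕ} (h : Gd P φ ε F n d i) (h' : Gd P φ ε F n d j) (hd : 3 * d < 1)
    (hN : d * n < ((nb F n i).card : ℝ)) (hN' : d * n < ((nb F n j).card : ℝ))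
    (hb : beta P φ ε i j ≤ d) :
    ‖Pool.OCM.md P φ ε d i + Pool.OCM.md P φ ε d j‖ ≤ 3 * ε :=
  mode_opp (h0 _ h.1) (h1 _ h.1) (h0 _ h'.1) (h1 _ h'.1) hd hb (h.md h0 h1 hN) (h'.md h0 h1 hN')

lemma close_run {i : ℕ} (s : ℕ) (hg : ∀ s' ≤ s, Gd P φ ε F n d (i + s')) (hd : 4 * d < 1)
    (hN : ∀ j < n, d * n < ((nb F n j).card : ℝ)) :
    ‖Pool.OCM.md P φ ε d i - Pool.OCM.md P φ ε d (i + s)‖ ≤ 2 * s * ε := by
  induction s with
  | zero => simp
  | succ k ih =>
    have e1 := ih (fun s' hs' => hg s' (by omega))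
    have g1 := hg k (by omega)
    have g2 := hg (k + 1) le_rfl
    have e2 := close_next h0 h1 g1 g2 hd (hN _ g1.1) (hN _ g2.1)
    have e3 : Pool.OCM.md P φ ε d i - Pool.OCM.md P φ ε d (i + (k + 1)) =
        (Pool.OCM.md P φ ε d i - Pool.OCM.md P φ ε d (i + k)) +
        (Pool.OCM.md P φ ε d (i + k) - Pool.OCM.md P φ ε d (i + k + 1)) := by
      rw [← add_assoc]; abel
    rw [e3]
    refine (norm_add_le _ _).trans ?_
    push_cast
    linarith

/-- The key step: the modes of `i` and `i + K! * d₁` agree. -/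
lemma close_mul {i d₁ K L : ℕ} {c : ℝ} (hc : 0 < c) (hK : 2 ≤ c ^ 2 * (K + 1)) (hn : 0 < n)
    (hd : 3 * d < 1) (hN : ∀ j < n, c * n ≤ ((nb F n j).card : ℝ)) (hdc : d < c)
    (hg : ∀ t ≤ K.factorial, Gd P φ ε F n d (i + t * d₁)) (hL : K.factorial * d₁ ≤ L)
    (hLn : (L : ℝ) + 2 * (d * n) < c ^ 2 / 2 * n) (he : 0 ≤ ε) :
    ‖Pool.OCM.md P φ ε d i - Pool.OCM.md P φ ε d (i + K.factorial * d₁)‖ ≤
      4 * K.factorial * ε := by
  have hn' : (0 : ℝ) < n := by exact_mod_cast hn
  have hKM : K ≤ K.factorial := Nat.self_le_factorial K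
  have hN' : ∀ j < n, d * n < ((nb F n j).card : ℝ) := fun j hj =>
    lt_of_lt_of_le (mul_lt_mul_of_pos_right hdc hn') (hN j hj)
  obtain ⟨k, l, hkl, hlK, hcard⟩ := two_inter hn hc hK (fun k => nb F n (i + k * d₁))
    (fun k _ => filter_subset _ _) (fun k hk => hN _ (hg k (by omega)).1)
  set e := l - k with he'
  have he1 : 1 ≤ e := by omega
  have hdvd : e ∣ K.factorial := Nat.dvd_factorial (by omega) (by omega)
  obtain ⟨m, hm⟩ := hdvd
  have hcard' : c ^ 2 / 2 * n ≤
      ((nb F n (i + k * d₁) ∩ nb F n (i + k * d₁ + e * d₁)).card : ℝ) := by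
    have : i + k * d₁ + e * d₁ = i + l * d₁ := by
      have : l = k + e := by omega
      rw [this]; ring
    rw [this]; exact hcard
  -- all the pairs at distance `e * d₁` near `i`
  have step : ∀ t, t + 1 ≤ m →
      ‖Pool.OCM.md P φ ε d (i + t * (e * d₁)) - Pool.OCM.md P φ ε d (i + (t + 1) * (e * d₁))‖ ≤
        4 * ε := by
    intro t ht
    have ht1 : t * e ≤ K.factorial := by
      rw [hm, mul_comm e m]
      exact Nat.mul_le_mul_right e (by omega)
    have ht2 : (t + 1) * e ≤ K.factorial := by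
      rw [hm, mul_comm e m]
      exact Nat.mul_le_mul_right e ht
    have a1 : i + t * (e * d₁) = i + (t * e) * d₁ := by ring
    have a2 : i + (t + 1) * (e * d₁) = i + ((t + 1) * e) * d₁ := by ring
    have g1 : Gd P φ ε F n d (i + t * (e * d₁)) := by rw [a1]; exact hg _ ht1
    have g2 : Gd P φ ε F n d (i + (t + 1) * (e * d₁)) := by rw [a2]; exact hg _ ht2
    refine close_of_common h0 h1 g1 g2 hd (hN' _ g1.1) (hN' _ g2.1) ?_
    have a3 : i + (t + 1) * (e * d₁) = i + t * (e * d₁) + e * d₁ := by ring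
    rw [a3]
    have b1 : t * e * d₁ ≤ L := le_trans (Nat.mul_le_mul_right d₁ ht1) hL
    have b2 : k * d₁ ≤ L := le_trans (Nat.mul_le_mul_right d₁ (by omega)) hL
    rcases le_total (k * d₁) (t * (e * d₁)) with hle | hle
    · obtain ⟨s, hs⟩ := Nat.exists_eq_add_of_le hle
      have c1 := nb_shift_up F n (i + k * d₁) (e * d₁) s
      have c2 : i + k * d₁ + s = i + t * (e * d₁) := by omega
      rw [c2] at c1
      have c3 : s ≤ L := by
        have : t * (e * d₁) = t * e * d₁ := by ring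
        omega
      have c4 : ((nb F n (i + k * d₁) ∩ nb F n (i + k * d₁ + e * d₁)).card : ℝ) ≤
          ((nb F n (i + t * (e * d₁)) ∩ nb F n (i + t * (e * d₁) + e * d₁)).card : ℝ) + s := by
        exact_mod_cast c1
      have c5 : (s : ℝ) ≤ L := by exact_mod_cast c3
      linarith only [hLn, hcard', c4, c5]
    · obtain ⟨s, hs⟩ := Nat.exists_eq_add_of_le hle
      have c1 := nb_shift_down F n (i + t * (e * d₁)) (e * d₁) s
      have c2 : i + t * (e * d₁) + s = i + k * d₁ := by omega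
      rw [c2] at c1
      have c3 : s ≤ L := by omega
      have c4 : ((nb F n (i + k * d₁) ∩ nb F n (i + k * d₁ + e * d₁)).card : ℝ) ≤
          ((nb F n (i + t * (e * d₁)) ∩ nb F n (i + t * (e * d₁) + e * d₁)).card : ℝ) + s := by
        exact_mod_cast c1
      have c5 : (s : ℝ) ≤ L := by exact_mod_cast c3
      linarith only [hLn, hcard', c4, c5]
  exact by
   have chain : ∀ t, t ≤ m →
       ‖Pool.OCM.md P φ ε d i - Pool.OCM.md P φ ε d (i + t * (e * d₁))‖ ≤ 4 * t * ε := by
     intro t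
     induction t with
     | zero => intro _; simp
     | succ t ih =>
       intro ht
       have e1 := ih (by omega)
       have e2 := step t ht
       have e3 : Pool.OCM.md P φ ε d i - Pool.OCM.md P φ ε d (i + (t + 1) * (e * d₁)) =
           (Pool.OCM.md P φ ε d i - Pool.OCM.md P φ ε d (i + t * (e * d₁))) +
           (Pool.OCM.md P φ ε d (i + t * (e * d₁)) -
             Pool.OCM.md P φ ε d (i + (t + 1) * (e * d₁))) := by abel
       rw [e3]
       refine (norm_add_le _ _).trans ?_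
       push_cast
       linarith only [e1, e2]
   have h3 := chain m le_rfl
   have h4 : m * (e * d₁) = K.factorial * d₁ := by rw [hm]; ring
   rw [h4] at h3
   refine h3.trans ?_
   have h5 : m ≤ K.factorial := by
     rw [hm]
     exact Nat.le_mul_of_pos_left m (by omega)
   have h6 : (m : ℝ) ≤ K.factorial := by exact_mod_cast h5
   nlinarith only [he, h6]

end Facts

end Main

section Final

variable {T : Type u} [Fintype T] {E : Type*} [SeminormedAddCommGroup E]

/-- The pair `(i, e)` is bad. -/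
def BadP (P : ℕ → T → ℝ) (φ : T → E) (ε : ℝ) (F : Finset ℕ) (n : ℕ) (d : ℝ) (M i e : ℕ) : Prop :=
  (∃ t ≤ M, ¬ Gd P φ ε F n d (i + t * (e / M))) ∨
    ∃ s ≤ M, ¬ Gd P φ ε F n d (i + M * (e / M) + s)

variable {P : ℕ → T → ℝ} {φ : T → E} {ε : ℝ} {F : Finset ℕ} {n : ℕ} {d : ℝ}

lemma shift_exc (A : Finset ℕ) (n x : ℕ) :
    ((range n).filter (fun i => i + x ∈ A)).card ≤ A.card := by
  classical
  rw [← card_image_of_injective _ (add_left_injective x)]
  refine card_le_card fun y hy => ?_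
  rw [mem_image] at hy
  obtain ⟨i, hi, rfl⟩ := hy
  rw [mem_filter] at hi
  exact hi.2

open Classical in
lemma badP_count {M L e : ℕ} (hML : M ≤ L) (he : e < L) :
    ((range n).filter (fun i => i + 2 * L ≤ n ∧ BadP P φ ε F n d M i e)).card ≤
      (2 * M + 2) * (exc P φ ε F n d).card := by
  set A := exc P φ ε F n d with hA
  have h1 : (range n).filter (fun i => i + 2 * L ≤ n ∧ BadP P φ ε F n d M i e) ⊆
      ((range (M + 1)).biUnion fun t => (range n).filter (fun i => i + t * (e / M) ∈ A)) ∪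
      ((range (M + 1)).biUnion fun s => (range n).filter (fun i => i + (M * (e / M) + s) ∈ A)) := by
    intro i hi
    rw [mem_filter, mem_range] at hi
    obtain ⟨hin, hiL, hb⟩ := hi
    have hMe : M * (e / M) ≤ e := Nat.mul_div_le e M
    rw [mem_union, mem_biUnion, mem_biUnion]
    rcases hb with ⟨t, ht, hg⟩ | ⟨s, hs, hg⟩
    · left
      refine ⟨t, mem_range.mpr (by omega), ?_⟩
      rw [mem_filter, mem_range]
      refine ⟨hin, ?_⟩
      by_contra hc
      have h2 : t * (e / M) ≤ M * (e / M) := Nat.mul_le_mul_right _ ht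
      exact hg ⟨by omega, hc⟩
    · right
      refine ⟨s, mem_range.mpr (by omega), ?_⟩
      rw [mem_filter, mem_range]
      refine ⟨hin, ?_⟩
      by_contra hc
      have h3 : i + (M * (e / M) + s) = i + M * (e / M) + s := by ring
      rw [h3] at hc
      exact hg ⟨by omega, hc⟩
  refine (card_le_card h1).trans ((card_union_le _ _).trans ?_)
  have h2 : ((range (M + 1)).biUnion fun t =>
      (range n).filter (fun i => i + t * (e / M) ∈ A)).card ≤ (M + 1) * A.card := by
    refine card_biUnion_le.trans ?_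
    refine (sum_le_card_nsmul _ _ _ fun t _ => shift_exc A n _).trans ?_
    simp
  have h3 : ((range (M + 1)).biUnion fun s =>
      (range n).filter (fun i => i + (M * (e / M) + s) ∈ A)).card ≤ (M + 1) * A.card := by
    refine card_biUnion_le.trans ?_
    refine (sum_le_card_nsmul _ _ _ fun t _ => shift_exc A n _).trans ?_
    simp
  calc _ ≤ (M + 1) * A.card + (M + 1) * A.card := add_le_add h2 h3
    _ = _ := by ring

open Classical in
/-- Few scales have many bad partners. -/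
lemma badY {M L : ℕ} (hML : M ≤ L) {θ : ℝ} :
    θ * (((range n).filter (fun i => i + 2 * L ≤ n ∧
      θ < (((range L).filter (fun e => BadP P φ ε F n d M i e)).card : ℝ))).card : ℝ) ≤
      L * ((2 * M + 2) * (exc P φ ε F n d).card) := by
  set Y := (range n).filter (fun i => i + 2 * L ≤ n ∧
      θ < (((range L).filter (fun e => BadP P φ ε F n d M i e)).card : ℝ)) with hY
  have h1 : θ * (Y.card : ℝ) ≤
      ∑ i ∈ Y, (((range L).filter (fun e => BadP P φ ε F n d M i e)).card : ℝ) := by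
    calc θ * (Y.card : ℝ) = ∑ _i ∈ Y, θ := by simp [mul_comm]
      _ ≤ _ := by
        refine sum_le_sum fun i hi => ?_
        rw [hY, mem_filter] at hi
        exact hi.2.2.le
  refine h1.trans ?_
  have h2 : ∑ i ∈ Y, ((range L).filter (fun e => BadP P φ ε F n d M i e)).card ≤
      ∑ e ∈ range L,
        ((range n).filter (fun i => i + 2 * L ≤ n ∧ BadP P φ ε F n d M i e)).card := by
    simp_rw [card_filter]
    rw [sum_comm]
    refine sum_le_sum fun e _ => ?_
    calc ∑ i ∈ Y, (if BadP P φ ε F n d M i e then 1 else 0)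
        = ∑ i ∈ Y, (if i + 2 * L ≤ n ∧ BadP P φ ε F n d M i e then 1 else 0) := by
          refine sum_congr rfl fun i hi => ?_
          rw [hY, mem_filter] at hi
          by_cases hb : BadP P φ ε F n d M i e
          · rw [if_pos hb, if_pos ⟨hi.2.1, hb⟩]
          · rw [if_neg hb, if_neg (fun h => hb h.2)]
      _ ≤ _ := sum_le_sum_of_subset (filter_subset _ _)
  have h3 : ∑ e ∈ range L,
        ((range n).filter (fun i => i + 2 * L ≤ n ∧ BadP P φ ε F n d M i e)).card ≤
      L * ((2 * M + 2) * (exc P φ ε F n d).card) := by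
    refine (sum_le_card_nsmul _ _ _ fun e he => badP_count hML (mem_range.mp he)).trans ?_
    simp
  exact_mod_cast h2.trans h3

/-- For a pair which is not bad the modes agree. -/
lemma close_of_not_bad (h0 : ∀ i < n, ∀ t, 0 ≤ P i t) (h1 : ∀ i < n, ∑ t, P i t = 1)
    {i e K L : ℕ} {c : ℝ} (hc : 0 < c) (hK : 2 ≤ c ^ 2 * (K + 1)) (hn : 0 < n)
    (hd : 4 * d < 1) (hN : ∀ j < n, c * n ≤ ((nb F n j).card : ℝ)) (hdc : d < c)
    (he : e ≤ L) (hLn : (L : ℝ) + 2 * (d * n) < c ^ 2 / 2 * n) (hε : 0 ≤ ε)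
    (hb : ¬ BadP P φ ε F n d K.factorial i e) :
    ‖Pool.OCM.md P φ ε d i - Pool.OCM.md P φ ε d (i + e)‖ ≤ 6 * K.factorial * ε := by
  have hn' : (0 : ℝ) < n := by exact_mod_cast hn
  have hN' : ∀ j < n, d * n < ((nb F n j).card : ℝ) := fun j hj =>
    lt_of_lt_of_le (mul_lt_mul_of_pos_right hdc hn') (hN j hj)
  unfold BadP at hb
  push Not at hb
  set M := K.factorial with hM
  have hM0 : 0 < M := Nat.factorial_pos K
  have hMe : M * (e / M) ≤ e := Nat.mul_div_le e M
  have k1 := close_mul h0 h1 hc hK hn (by linarith only [hd]) hN hdc hb.1 (le_trans hMe he) hLn hε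
  have hs : e % M ≤ M := (Nat.mod_lt _ hM0).le
  have k2 := close_run h0 h1 (i := i + M * (e / M)) (e % M)
    (fun s' hs' => hb.2 s' (le_trans hs' hs)) hd hN'
  have e1 : i + M * (e / M) + e % M = i + e := by
    rw [add_assoc, Nat.div_add_mod]
  rw [e1] at k2
  have e2 : Pool.OCM.md P φ ε d i - Pool.OCM.md P φ ε d (i + e) =
      (Pool.OCM.md P φ ε d i - Pool.OCM.md P φ ε d (i + M * (e / M))) +
      (Pool.OCM.md P φ ε d (i + M * (e / M)) - Pool.OCM.md P φ ε d (i + e)) := by abel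
  rw [e2]
  refine (norm_add_le _ _).trans ?_
  have k3 : ((e % M : ℕ) : ℝ) ≤ M := by exact_mod_cast hs
  nlinarith only [k1, k2, hε, k3]

variable [NormedSpace ℝ E]

open Classical in
/-- Typical scales have a small mode. -/
lemma md_small (h0 : ∀ i < n, ∀ t, 0 ≤ P i t) (h1 : ∀ i < n, ∑ t, P i t = 1)
    {i K L : ℕ} {c c' : ℝ} (hc : 0 < c) (hK : 2 ≤ c ^ 2 * (K + 1)) (hn : 0 < n)
    (hd : 4 * d < 1) (hN : ∀ j < n, c * n ≤ ((nb F n j).card : ℝ)) (hdc : d < c)
    (hLn : (L : ℝ) + 2 * (d * n) < c ^ 2 / 2 * n) (hε : 0 ≤ ε) (hL : 0 < L) (hc' : 0 < c')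
    (hi : Gd P φ ε F n d i) (hiL : i + 2 * L ≤ n) (hF : c' * L ≤ ((nb F L (2 * i)).card : ℝ))
    (hdL : d * n ≤ c' * L / 4)
    (hY : (((range L).filter (fun e => BadP P φ ε F n d K.factorial i e)).card : ℝ) ≤
      c' * L / 4) :
    ‖Pool.OCM.md P φ ε d i‖ ≤ (3 * K.factorial + 2) * ε := by
  have hn' : (0 : ℝ) < n := by exact_mod_cast hn
  have hL' : (0 : ℝ) < L := by exact_mod_cast hL
  have hN' : ∀ j < n, d * n < ((nb F n j).card : ℝ) := fun j hj =>
    lt_of_lt_of_le (mul_lt_mul_of_pos_right hdc hn') (hN j hj)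
  have hex : ∃ e ∈ nb F L (2 * i), ¬ BadP P φ ε F n d K.factorial i e ∧
      beta P φ ε i (i + e) ≤ d := by
    by_contra hcon
    push Not at hcon
    have h2 : nb F L (2 * i) ⊆ (range L).filter (fun e => BadP P φ ε F n d K.factorial i e) ∪
        (range n).filter (fun e => i + e ∈ (nb F n i).filter (fun j => d < beta P φ ε i j)) := by
      intro e he
      have he' := he
      rw [mem_nb] at he'
      rw [mem_union, mem_filter, mem_filter, mem_range, mem_range]
      by_cases hb : BadP P φ ε F n d K.factorial i e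
      · exact Or.inl ⟨he'.1, hb⟩
      · right
        refine ⟨by omega, ?_⟩
        rw [mem_filter, mem_nb]
        refine ⟨⟨by omega, ?_⟩, hcon e he hb⟩
        have : i + (i + e) = 2 * i + e := by ring
        rw [this]; exact he'.2
    have h3 := (card_le_card h2).trans (card_union_le _ _)
    have h4 : ((range n).filter (fun e => i + e ∈ (nb F n i).filter
        (fun j => d < beta P φ ε i j))).card ≤
        ((nb F n i).filter (fun j => d < beta P φ ε i j)).card := by
      have := shift_exc ((nb F n i).filter (fun j => d < beta P φ ε i j)) n i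
      simpa [add_comm] using this
    have h5 : ((nb F L (2 * i)).card : ℝ) ≤
        (((range L).filter (fun e => BadP P φ ε F n d K.factorial i e)).card : ℝ) +
        (((nb F n i).filter (fun j => d < beta P φ ε i j)).card : ℝ) := by
      exact_mod_cast h3.trans (Nat.add_le_add_left h4 _)
    have h6 := hi.few
    nlinarith only [hF, hdL, hY, h5, h6, hc', hL']
  obtain ⟨e, he, hb, hbe⟩ := hex
  rw [mem_nb] at he
  have g2 : Gd P φ ε F n d (i + e) := by
    have hb' := hb
    unfold BadP at hb'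
    push Not at hb'
    have h2 := hb'.2 (e % K.factorial) (Nat.mod_lt _ (Nat.factorial_pos K)).le
    rwa [add_assoc, Nat.div_add_mod] at h2
  have k1 := close_of_not_bad h0 h1 hc hK hn hd hN hdc he.1.le hLn hε hb
  have k2 := opp_of_good h0 h1 hi g2 (by linarith only [hd]) (hN' _ hi.1) (hN' _ g2.1) hbe
  have e1 : (2 : ℝ) • Pool.OCM.md P φ ε d i =
      (Pool.OCM.md P φ ε d i - Pool.OCM.md P φ ε d (i + e)) +
      (Pool.OCM.md P φ ε d i + Pool.OCM.md P φ ε d (i + e)) := by
    rw [two_smul]; abel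
  have e2 : ‖(2 : ℝ) • Pool.OCM.md P φ ε d i‖ = 2 * ‖Pool.OCM.md P φ ε d i‖ := by
    rw [norm_smul]; norm_num
  have e3 := norm_add_le (Pool.OCM.md P φ ε d i - Pool.OCM.md P φ ε d (i + e))
    (Pool.OCM.md P φ ε d i + Pool.OCM.md P φ ε d (i + e))
  rw [← e1, e2] at e3
  nlinarith only [hε, k1, k2, e3]

end Final

/-- ROW ONE of theorem OCM: if most pairs of partners of scales `i`, `j` with `i + j ∈ F` have
`φ a + φ b = 0` up to `ε`, then most partners have `φ a = 0` up to `C * ε`. -/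
def OneStmt.{v, w} : Prop := ∀ c : ℝ, 0 < c → ∃ C : ℝ, 0 < C ∧ ∀ δ' : ℝ, 0 < δ' →
  ∃ q : ℕ, 0 < q ∧ ∃ δ : ℝ, 0 < δ ∧ ∃ n0 : ℕ, ∀ n : ℕ, n0 ≤ n →
  ∀ (T : Type v) [Fintype T] (E : Type w) [SeminormedAddCommGroup E] [NormedSpace ℝ E]
    (P : ℕ → T → ℝ) (φ : T → E) (ε : ℝ) (F : Finset ℕ), 0 ≤ ε →
    (∀ i < n, ∀ t, 0 ≤ P i t) → (∀ i < n, ∑ t, P i t = 1) →
    (∀ x, x + n / q ≤ 2 * n → c * (n / q : ℕ) ≤ ((nb F (n / q) x).card : ℝ)) →
    (∑ i ∈ range n, ∑ j ∈ range n, (if i + j ∈ F then beta P φ ε i j else 0) ≤ δ * n ^ 2) →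
    (∀ A : Finset ℕ, (∀ i ∈ A, i < n ∧ ¬ ∀ t, P (i + 1) t ≤ 3 * P i t) →
      (A.card : ℝ) ≤ δ * n) →
    ∑ i ∈ range n, ms (P i) (fun a => C * ε < ‖φ a‖) ≤ δ' * n

open Classical in
theorem one_thm.{v, w} : OneStmt.{v, w} := by
  intro c hc
  set c₁ : ℝ := c / 2 with hc1
  have hc1' : 0 < c₁ := by positivity
  set K : ℕ := ⌈2 / c₁ ^ 2⌉₊ with hKdef
  have hK : 2 ≤ c₁ ^ 2 * ((K : ℝ) + 1) := by
    have h1 : 2 / c₁ ^ 2 ≤ K := Nat.le_ceil _
    rw [div_le_iff₀ (by positivity)] at h1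
    nlinarith only [h1, sq_nonneg c₁]
  set M : ℕ := K.factorial with hM
  have hM0 : 0 < M := Nat.factorial_pos K
  refine ⟨3 * M + 3, by positivity, ?_⟩
  intro δ' hδ'
  set q : ℕ := ⌈8 / δ'⌉₊ + ⌈8 / c₁ ^ 2⌉₊ + 1 with hq
  have hq0 : 0 < q := by omega
  have hqR : (0 : ℝ) < q := by exact_mod_cast hq0
  have hq1 : 8 ≤ δ' * q := by
    have h1 : 8 / δ' ≤ (⌈8 / δ'⌉₊ : ℝ) := Nat.le_ceil _
    have h2 : ((⌈8 / δ'⌉₊ : ℕ) : ℝ) ≤ q := by exact_mod_cast (by omega)
    have h3 := h1.trans h2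
    rw [div_le_iff₀ hδ'] at h3
    linarith only [h3]
  have hq2 : 8 ≤ c₁ ^ 2 * q := by
    have h1 : 8 / c₁ ^ 2 ≤ (⌈8 / c₁ ^ 2⌉₊ : ℝ) := Nat.le_ceil _
    have h2 : ((⌈8 / c₁ ^ 2⌉₊ : ℕ) : ℝ) ≤ q := by exact_mod_cast (by omega)
    have h3 := h1.trans h2
    rw [div_le_iff₀ (by positivity)] at h3
    linarith only [h3]
  refine ⟨q, hq0, ?_⟩
  obtain ⟨d, hd0, hd1, hd2, hd3, hd4, hd5⟩ : ∃ d : ℝ, 0 < d ∧ d ≤ 1 / 8 ∧ d ≤ δ' / 4 ∧
      d ≤ c₁ ^ 2 / 16 ∧ d ≤ c₁ / 2 ∧ d ≤ c / (8 * q) := by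
    refine ⟨min (1 / 8) (min (δ' / 4) (min (c₁ ^ 2 / 16) (min (c₁ / 2) (c / (8 * q))))), ?_, ?_⟩
    · have h1 : 0 < c / (8 * q) := by positivity
      have h2 : 0 < c₁ ^ 2 / 16 := by positivity
      exact lt_min (by norm_num) (lt_min (by positivity) (lt_min h2 (lt_min (by positivity) h1)))
    · exact ⟨min_le_left _ _, (min_le_right _ _).trans (min_le_left _ _),
        (min_le_right _ _).trans ((min_le_right _ _).trans (min_le_left _ _)),
        (min_le_right _ _).trans ((min_le_right _ _).trans ((min_le_right _ _).trans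
          (min_le_left _ _))),
        (min_le_right _ _).trans ((min_le_right _ _).trans ((min_le_right _ _).trans
          (min_le_right _ _)))⟩
  exact by
   set A : ℝ := 1 + 1 / d ^ 2 with hA
   set B : ℝ := 1 + 4 / c * (2 * M + 2) with hB
   have hA0 : 0 < A := by positivity
   have hB0 : 0 < B := by positivity
   set δ : ℝ := δ' / (8 * A * B) with hδ
   have hδ0 : 0 < δ := by positivity
   refine ⟨δ, hδ0, q * (M + 2), ?_⟩
   intro n hn T _ E _ _ P φ ε F hε h0 h1 hF hR hC
   set L : ℕ := n / q with hL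
   have hLM : M + 2 ≤ L := by
     rw [hL, Nat.le_div_iff_mul_le hq0]
     rw [mul_comm]; exact hn
   have hL0 : 0 < L := by omega
   have hqL : q * L ≤ n := Nat.mul_div_le n q
   have hn0 : 0 < n := lt_of_lt_of_le (Nat.mul_pos hq0 hL0) hqL
   have hnR : (0 : ℝ) < n := by exact_mod_cast hn0
   have hLR : (0 : ℝ) < L := by exact_mod_cast hL0
   have hqL' : (q : ℝ) * L ≤ n := by exact_mod_cast hqL
   have hn2 : n ≤ 2 * (q * L) := by
     have h2 : n < q * (L + 1) := by
       have := Nat.lt_mul_div_succ n hq0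
       simpa [hL] using this
     have h3 : q * (L + 1) ≤ 2 * (q * L) := by
       have : q * (L + 1) = q * L + q := by ring
       have h4 : q ≤ q * L := Nat.le_mul_of_pos_right q hL0
       omega
     omega
   have hn2' : (n : ℝ) ≤ 2 * (q * L) := by exact_mod_cast hn2
   -- the densities
   have hN : ∀ j < n, c₁ * n ≤ ((nb F n j).card : ℝ) := by
     intro j hj
     have h2 := nb_blocks hF q j (by omega)
     have h3 : ((nb F (q * L) j).card : ℝ) ≤ ((nb F n j).card : ℝ) := by
       exact_mod_cast card_le_card (nb_mono F hqL j)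
     rw [hc1]
     nlinarith only [h2, h3, hc, hn2']
   exact by
    have hLn : (L : ℝ) + 2 * (d * n) < c₁ ^ 2 / 2 * n := by
      have h2 : (8 : ℝ) * L ≤ c₁ ^ 2 * n := by
        calc (8 : ℝ) * L ≤ c₁ ^ 2 * q * L := mul_le_mul_of_nonneg_right hq2 hLR.le
          _ = c₁ ^ 2 * (q * L) := by ring
          _ ≤ c₁ ^ 2 * n := mul_le_mul_of_nonneg_left hqL' (by positivity)
      have h3 : d * n ≤ c₁ ^ 2 / 16 * n := mul_le_mul_of_nonneg_right hd3 hnR.le
      have h4 : 0 < c₁ ^ 2 * n := by positivity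
      linarith only [hLR, h2, h3]
    have h2L : 2 * (L : ℝ) ≤ δ' / 4 * n := by
      have : (8 : ℝ) * L ≤ δ' * n := by
        calc (8 : ℝ) * L ≤ δ' * q * L := mul_le_mul_of_nonneg_right hq1 hLR.le
          _ = δ' * (q * L) := by ring
          _ ≤ δ' * n := mul_le_mul_of_nonneg_left hqL' hδ'.le
      linarith only [this]
    have hdL : d * n ≤ c * L / 4 := by
      have h2 : d * n ≤ c / (8 * q) * (2 * (q * L)) := by
        calc d * n ≤ c / (8 * q) * n := mul_le_mul_of_nonneg_right hd5 hnR.le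
          _ ≤ _ := mul_le_mul_of_nonneg_left hn2' (by positivity)
      have h3 : c / (8 * q) * (2 * (q * L)) = c * L / 4 := by
        field_simp
        ring
      linarith only [h2, h3]
    -- the exceptional sets
    have hC' : (((range n).filter (fun i => ¬ ∀ t, P (i + 1) t ≤ 3 * P i t)).card : ℝ) ≤ δ * n := by
      refine hC _ fun i hi => ?_
      rw [mem_filter, mem_range] at hi
      exact hi
    have hexc := exc_card (d := d) h0 hn0 hd0 hR hC'
    set X := exc P φ ε F n d with hX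
    set Y := (range n).filter (fun i => i + 2 * L ≤ n ∧
        c * L / 4 < (((range L).filter (fun e => BadP P φ ε F n d M i e)).card : ℝ)) with hY
    exact by
     set Z := (range n).filter (fun i => n < i + 2 * L) with hZ
     have hYc : (Y.card : ℝ) ≤ 4 / c * (2 * M + 2) * X.card := by
       have h2 := badY (P := P) (φ := φ) (ε := ε) (F := F) (n := n) (d := d) (M := M) (L := L)
         (by omega) (θ := c * L / 4)
       have h3 : c * L / 4 * (Y.card : ℝ) ≤ L * ((2 * M + 2) * X.card) := h2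
       have h4 : (L : ℝ) * (c / 4 * (Y.card : ℝ)) ≤ L * ((2 * M + 2) * X.card) := by linarith only [h2]
       have h5 := le_of_mul_le_mul_left h4 hLR
       have h6 : (Y.card : ℝ) = 4 / c * (c / 4 * (Y.card : ℝ)) := by field_simp
       rw [h6, mul_assoc]
       exact mul_le_mul_of_nonneg_left h5 (by positivity)
     have hZc : (Z.card : ℝ) ≤ 2 * L := by
       have h2 : Z ⊆ Ico (n - 2 * L) n := by
         intro i hi
         rw [hZ, mem_filter, mem_range] at hi
         rw [mem_Ico]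
         omega
       have h3 := card_le_card h2
       rw [Nat.card_Ico] at h3
       have h4 : Z.card ≤ 2 * L := by omega
       exact_mod_cast h4
     have hXY : (X.card : ℝ) + Y.card ≤ δ' / 8 * n := by
       have h2 : (X.card : ℝ) + Y.card ≤ B * X.card := by
         rw [hB]
         linarith only [hYc]
       have h3 : (X.card : ℝ) ≤ δ * A * n := by
         have : (δ + δ / d ^ 2) = δ * A := by rw [hA]; ring
         rw [← this]; exact hexc
       calc (X.card : ℝ) + Y.card ≤ B * X.card := h2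
         _ ≤ B * (δ * A * n) := mul_le_mul_of_nonneg_left h3 hB0.le
         _ = δ' / 8 * n := by
           rw [hδ]
           field_simp
     exact by
      have hmain : ∀ i ∈ range n, ms (P i) (fun a => (3 * M + 3) * ε < ‖φ a‖) ≤
          d + (if i ∈ X then 1 else 0) + (if i ∈ Y then 1 else 0) + (if i ∈ Z then 1 else 0) := by
        intro i hi
        have hin := mem_range.mp hi
        have hle1 := ms_le_one (h0 i hin) (h1 i hin) (fun a => (3 * M + 3) * ε < ‖φ a‖)
        by_cases hiX : i ∈ X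
        · rw [if_pos hiX]
          split_ifs <;> linarith
        by_cases hiY : i ∈ Y
        · rw [if_pos hiY]
          split_ifs <;> linarith
        by_cases hiZ : i ∈ Z
        · rw [if_pos hiZ]
          split_ifs <;> linarith only [hd0, hle1]
        rw [if_neg hiX, if_neg hiY, if_neg hiZ, add_zero, add_zero, add_zero]
        have hiL : i + 2 * L ≤ n := by
          by_contra hcon
          exact hiZ (by rw [hZ, mem_filter]; exact ⟨hi, by omega⟩)
        have hg : Gd P φ ε F n d i := ⟨hin, hiX⟩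
        have hYi : (((range L).filter (fun e => BadP P φ ε F n d M i e)).card : ℝ) ≤ c * L / 4 := by
          by_contra hcon
          exact hiY (by rw [hY, mem_filter]; exact ⟨hi, hiL, not_le.mp hcon⟩)
        have hsm := md_small h0 h1 hc1' hK hn0 (by linarith only [hd0, hd1]) hN (by linarith only [hd0, hd4]) hLn hε hL0 hc hg
          hiL (hF (2 * i) (by omega)) hdL hYi
        have hN' : d * n < ((nb F n i).card : ℝ) :=
          lt_of_lt_of_le (mul_lt_mul_of_pos_right (by linarith only [hd0, hd4]) hnR) (hN i hin)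
        refine le_trans (ms_mono (h0 i hin) fun a ha => ?_) (hg.md h0 h1 hN')
        by_contra hcon
        simp only [not_lt] at hcon
        have e1 : φ a = (φ a - Pool.OCM.md P φ ε d i) + Pool.OCM.md P φ ε d i := by abel
        rw [e1] at ha
        have e2 := norm_add_le (φ a - Pool.OCM.md P φ ε d i) (Pool.OCM.md P φ ε d i)
        linarith only [hsm, ha, hcon, e2]
      exact by
       have hsum : ∀ A' : Finset ℕ, A' ⊆ range n →
           ∑ i ∈ range n, (if i ∈ A' then (1 : ℝ) else 0) = A'.card := by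
         intro A' hA'
         rw [sum_ite_mem, inter_eq_right.mpr hA']
         simp
       calc ∑ i ∈ range n, ms (P i) (fun a => (3 * M + 3) * ε < ‖φ a‖)
           ≤ ∑ i ∈ range n, (d + (if i ∈ X then 1 else 0) + (if i ∈ Y then 1 else 0) +
             (if i ∈ Z then 1 else 0)) := sum_le_sum hmain
         _ = n * d + X.card + Y.card + Z.card := by
           rw [sum_add_distrib, sum_add_distrib, sum_add_distrib, hsum X (filter_subset _ _),
             hsum Y (filter_subset _ _), hsum Z (filter_subset _ _)]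
           simp
         _ ≤ δ' * n := by
           have h2 : d * n ≤ δ' / 4 * n := mul_le_mul_of_nonneg_right hd2 hnR.le
           have h3 : 0 < δ' * n := by positivity
           linarith only [hLR, h2L, hZc, hXY, h2]

/-- References: a vector which is opposite to most partners of many scales is small. -/
theorem one_ref {T : Type u} [Fintype T] {E : Type*} [SeminormedAddCommGroup E]
    {P : ℕ → T → ℝ} {φ : T → E} {ε C c : ℝ} {n : ℕ} (hc : 0 < c) (hn : 0 < n)
    (h0 : ∀ i < n, ∀ t, 0 ≤ P i t) (h1 : ∀ i < n, ∑ t, P i t = 1) (v : E) (J : Finset ℕ)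
    (hJ : J ⊆ range n) (hJc : c * n ≤ (J.card : ℝ))
    (hv : ∑ j ∈ J, ms (P j) (fun a => ε < ‖v + φ a‖) ≤ c / 4 * n)
    (hs : ∑ j ∈ range n, ms (P j) (fun a => C * ε < ‖φ a‖) ≤ c / 4 * n) :
    ‖v‖ ≤ (C + 1) * ε := by
  have hn' : (0 : ℝ) < n := by exact_mod_cast hn
  have h2 : ∑ j ∈ J, ms (P j) (fun a => C * ε < ‖φ a‖) ≤ c / 4 * n := by
    refine le_trans (sum_le_sum_of_subset_of_nonneg hJ fun j hj _ => ?_) hs
    exact ms_nonneg (h0 j (mem_range.mp hj)) _
  have h3 : ∃ j ∈ J, ms (P j) (fun a => ε < ‖v + φ a‖) +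
      ms (P j) (fun a => C * ε < ‖φ a‖) < 1 := by
    by_contra hcon
    push Not at hcon
    have h4 : (J.card : ℝ) ≤ ∑ j ∈ J, (ms (P j) (fun a => ε < ‖v + φ a‖) +
        ms (P j) (fun a => C * ε < ‖φ a‖)) := by
      calc (J.card : ℝ) = ∑ _j ∈ J, (1 : ℝ) := by simp
        _ ≤ _ := sum_le_sum hcon
    rw [sum_add_distrib] at h4
    have : 0 < c * n := by positivity
    linarith only [hJc, hv, h2, h4, this]
  obtain ⟨j, hj, hlt⟩ := h3
  have hjn := mem_range.mp (hJ hj)
  obtain ⟨a, ha1, ha2⟩ := ms_ex (h1 j hjn) hlt (h0 j hjn)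
  simp only [not_lt] at ha1 ha2
  have e1 : v = (v + φ a) - φ a := by abel
  rw [e1]
  have e2 := norm_sub_le (v + φ a) (φ a)
  linarith only [ha1, ha2, e2]

end Pool.OCM
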