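import Pool.Agent.H79.OCM.One

/-!
# The combinatorial core of row ONE

Good scales `G i`, modes `m i`; scales with many common partners, and neighbouring scales, have
close modes, partners have opposite modes. Then most modes are small.
-/

set_option autoImplicit false

namespace Pool.OCM.Core

open Finset Pool.OCM

section Chains

variable {E : Type*} [SeminormedAddCommGroup E]
variable {G : ℕ → Prop} {m : ℕ → E} {ε θ c : ℝ} {F : Finset ℕ} {n : ℕ}

lemma run_close (C2 : ∀ i, G i → G (i + 1) → ‖m i - m (i + 1)‖ ≤ 4 * ε) {i : ℕ} (s : ℕ)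
    (hg : ∀ s' ≤ s, G (i + s')) : ‖m i - m (i + s)‖ ≤ 4 * s * ε := by
  induction s with
  | zero => simp
  | succ k ih =>
    have e1 := ih (fun s' hs' => hg s' (by omega))
    have e2 := C2 (i + k) (hg k (by omega)) (hg (k + 1) le_rfl)
    have e3 : m i - m (i + (k + 1)) = (m i - m (i + k)) + (m (i + k) - m (i + k + 1)) := by
      rw [← add_assoc]; abel
    rw [e3]
    refine (norm_add_le _ _).trans ?_
    push_cast
    linarith

lemma mul_close {i d₁ K L : ℕ} (hc : 0 < c) (hK : 2 ≤ c ^ 2 * (K + 1)) (hn : 0 < n)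
    (hGn : ∀ i, G i → i < n)
    (C1 : ∀ i i', G i → G i' → θ < ((nb F n i ∩ nb F n i').card : ℝ) → ‖m i - m i'‖ ≤ 4 * ε)
    (hN : ∀ j < n, c * n ≤ ((nb F n j).card : ℝ))
    (hg : ∀ t ≤ K.factorial, G (i + t * d₁)) (hL : K.factorial * d₁ ≤ L)
    (hLn : (L : ℝ) + θ < c ^ 2 / 2 * n) (he : 0 ≤ ε) :
    ‖m i - m (i + K.factorial * d₁)‖ ≤ 4 * K.factorial * ε := by
  have hKM : K ≤ K.factorial := Nat.self_le_factorial K
  obtain ⟨k, l, hkl, hlK, hcard⟩ := two_inter hn hc hK (fun k => nb F n (i + k * d₁))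
    (fun k _ => filter_subset _ _) (fun k hk => hN _ (hGn _ (hg k (by omega))))
  set e := l - k with he'
  have he1 : 1 ≤ e := by omega
  have hdvd : e ∣ K.factorial := Nat.dvd_factorial (by omega) (by omega)
  obtain ⟨p, hp⟩ := hdvd
  have hcard' : c ^ 2 / 2 * n ≤
      ((nb F n (i + k * d₁) ∩ nb F n (i + k * d₁ + e * d₁)).card : ℝ) := by
    have : i + k * d₁ + e * d₁ = i + l * d₁ := by
      have : l = k + e := by omega
      rw [this]; ring
    rw [this]; exact hcard
  have step : ∀ t, t + 1 ≤ p →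
      ‖m (i + t * (e * d₁)) - m (i + (t + 1) * (e * d₁))‖ ≤ 4 * ε := by
    intro t ht
    have ht1 : t * e ≤ K.factorial := by
      rw [hp, mul_comm e p]
      exact Nat.mul_le_mul_right e (by omega)
    have ht2 : (t + 1) * e ≤ K.factorial := by
      rw [hp, mul_comm e p]
      exact Nat.mul_le_mul_right e ht
    have a1 : i + t * (e * d₁) = i + (t * e) * d₁ := by ring
    have a2 : i + (t + 1) * (e * d₁) = i + ((t + 1) * e) * d₁ := by ring
    have g1 : G (i + t * (e * d₁)) := by rw [a1]; exact hg _ ht1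
    have g2 : G (i + (t + 1) * (e * d₁)) := by rw [a2]; exact hg _ ht2
    refine C1 _ _ g1 g2 ?_
    have a3 : i + (t + 1) * (e * d₁) = i + t * (e * d₁) + e * d₁ := by ring
    rw [a3]
    have b1 : t * e * d₁ ≤ L := le_trans (Nat.mul_le_mul_right d₁ ht1) hL
    have b2 : k * d₁ ≤ L := le_trans (Nat.mul_le_mul_right d₁ (by omega)) hL
    rcases le_total (k * d₁) (t * (e * d₁)) with hle | hle
    · obtain ⟨s, hs⟩ := Nat.exists_eq_add_of_le hle
      have c1 := nb_shift_up F n (i + k * d₁) (e * d₁) s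
      have c2 : i + k * d₁ + s = i + t * (e * d₁) := by omega
      rw [c2] at c1
      have c3 : s ≤ L := by
        have : t * (e * d₁) = t * e * d₁ := by ring
        omega
      have c4 : ((nb F n (i + k * d₁) ∩ nb F n (i + k * d₁ + e * d₁)).card : ℝ) ≤
          ((nb F n (i + t * (e * d₁)) ∩ nb F n (i + t * (e * d₁) + e * d₁)).card : ℝ) + s := by
        exact_mod_cast c1
      have c5 : (s : ℝ) ≤ L := by exact_mod_cast c3
      linarith
    · obtain ⟨s, hs⟩ := Nat.exists_eq_add_of_le hle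
      have c1 := nb_shift_down F n (i + t * (e * d₁)) (e * d₁) s
      have c2 : i + t * (e * d₁) + s = i + k * d₁ := by omega
      rw [c2] at c1
      have c3 : s ≤ L := by omega
      have c4 : ((nb F n (i + k * d₁) ∩ nb F n (i + k * d₁ + e * d₁)).card : ℝ) ≤
          ((nb F n (i + t * (e * d₁)) ∩ nb F n (i + t * (e * d₁) + e * d₁)).card : ℝ) + s := by
        exact_mod_cast c1
      have c5 : (s : ℝ) ≤ L := by exact_mod_cast c3
      linarith
  have chain : ∀ t, t ≤ p → ‖m i - m (i + t * (e * d₁))‖ ≤ 4 * t * ε := by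
    intro t
    induction t with
    | zero => intro _; simp
    | succ t ih =>
      intro ht
      have e1 := ih (by omega)
      have e2 := step t ht
      have e3 : m i - m (i + (t + 1) * (e * d₁)) =
          (m i - m (i + t * (e * d₁))) +
          (m (i + t * (e * d₁)) - m (i + (t + 1) * (e * d₁))) := by abel
      rw [e3]
      refine (norm_add_le _ _).trans ?_
      push_cast
      linarith
  have h3 := chain p le_rfl
  have h4 : p * (e * d₁) = K.factorial * d₁ := by rw [hp]; ring
  rw [h4] at h3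
  refine h3.trans ?_
  have h5 : p ≤ K.factorial := by
    rw [hp]
    exact Nat.le_mul_of_pos_left p (by omega)
  have h6 : (p : ℝ) ≤ K.factorial := by exact_mod_cast h5
  nlinarith

/-- The pair `(i, e)` is bad. -/
def BadP (G : ℕ → Prop) (M i e : ℕ) : Prop :=
  (∃ t ≤ M, ¬ G (i + t * (e / M))) ∨ ∃ s ≤ M, ¬ G (i + M * (e / M) + s)

open Classical in
lemma badP_count {M L e : ℕ} (hML : M ≤ L) (he : e < L) :
    ((range n).filter (fun i => i + 2 * L ≤ n ∧ BadP G M i e)).card ≤
      (2 * M + 2) * ((range n).filter (fun i => ¬ G i)).card := by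
  set A := (range n).filter (fun i => ¬ G i) with hA
  have h1 : (range n).filter (fun i => i + 2 * L ≤ n ∧ BadP G M i e) ⊆
      ((range (M + 1)).biUnion fun t => (range n).filter (fun i => i + t * (e / M) ∈ A)) ∪
      ((range (M + 1)).biUnion fun s => (range n).filter (fun i => i + (M * (e / M) + s) ∈ A)) := by
    intro i hi
    rw [mem_filter, mem_range] at hi
    obtain ⟨hin, hiL, hb⟩ := hi
    have hMe : M * (e / M) ≤ e := Nat.mul_div_le e M
    rw [mem_union, mem_biUnion, mem_biUnion]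
    rcases hb with ⟨t, ht, hg⟩ | ⟨s, hs, hg⟩
    · left
      refine ⟨t, mem_range.mpr (by omega), ?_⟩
      rw [mem_filter, mem_range, hA, mem_filter, mem_range]
      have h2 : t * (e / M) ≤ M * (e / M) := Nat.mul_le_mul_right _ ht
      exact ⟨hin, by omega, hg⟩
    · right
      refine ⟨s, mem_range.mpr (by omega), ?_⟩
      rw [mem_filter, mem_range, hA, mem_filter, mem_range]
      have h3 : i + (M * (e / M) + s) = i + M * (e / M) + s := by ring
      refine ⟨hin, by omega, ?_⟩
      rw [h3]; exact hg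
  refine (card_le_card h1).trans ((card_union_le _ _).trans ?_)
  have h2 : ((range (M + 1)).biUnion fun t =>
      (range n).filter (fun i => i + t * (e / M) ∈ A)).card ≤ (M + 1) * A.card := by
    refine card_biUnion_le.trans ?_
    refine (sum_le_card_nsmul _ _ _ fun t _ => shift_exc A n _).trans ?_
    simp
  have h3 : ((range (M + 1)).biUnion fun s =>
      (range n).filter (fun i => i + (M * (e / M) + s) ∈ A)).card ≤ (M + 1) * A.card := by
    refine card_biUnion_le.trans ?_
    refine (sum_le_card_nsmul _ _ _ fun t _ => shift_exc A n _).trans ?_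
    simp
  calc _ ≤ (M + 1) * A.card + (M + 1) * A.card := add_le_add h2 h3
    _ = _ := by ring

open Classical in
lemma badY {M L : ℕ} (hML : M ≤ L) {θ : ℝ} :
    θ * (((range n).filter (fun i => i + 2 * L ≤ n ∧
      θ < (((range L).filter (fun e => BadP G M i e)).card : ℝ))).card : ℝ) ≤
      L * ((2 * M + 2) * ((range n).filter (fun i => ¬ G i)).card) := by
  set Y := (range n).filter (fun i => i + 2 * L ≤ n ∧
      θ < (((range L).filter (fun e => BadP G M i e)).card : ℝ)) with hY
  have h1 : θ * (Y.card : ℝ) ≤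
      ∑ i ∈ Y, (((range L).filter (fun e => BadP G M i e)).card : ℝ) := by
    calc θ * (Y.card : ℝ) = ∑ _i ∈ Y, θ := by simp [mul_comm]
      _ ≤ _ := by
        refine sum_le_sum fun i hi => ?_
        rw [hY, mem_filter] at hi
        exact hi.2.2.le
  refine h1.trans ?_
  have h2 : ∑ i ∈ Y, ((range L).filter (fun e => BadP G M i e)).card ≤
      ∑ e ∈ range L, ((range n).filter (fun i => i + 2 * L ≤ n ∧ BadP G M i e)).card := by
    simp_rw [card_filter]
    rw [sum_comm]
    refine sum_le_sum fun e _ => ?_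
    calc ∑ i ∈ Y, (if BadP G M i e then 1 else 0)
        = ∑ i ∈ Y, (if i + 2 * L ≤ n ∧ BadP G M i e then 1 else 0) := by
          refine sum_congr rfl fun i hi => ?_
          rw [hY, mem_filter] at hi
          by_cases hb : BadP G M i e
          · rw [if_pos hb, if_pos ⟨hi.2.1, hb⟩]
          · rw [if_neg hb, if_neg (fun h => hb h.2)]
      _ ≤ _ := sum_le_sum_of_subset (filter_subset _ _)
  have h3 : ∑ e ∈ range L,
        ((range n).filter (fun i => i + 2 * L ≤ n ∧ BadP G M i e)).card ≤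
      L * ((2 * M + 2) * ((range n).filter (fun i => ¬ G i)).card) := by
    refine (sum_le_card_nsmul _ _ _ fun e he => badP_count hML (mem_range.mp he)).trans ?_
    simp
  exact_mod_cast h2.trans h3

end Chains

section Main

variable {E : Type*} [SeminormedAddCommGroup E] [NormedSpace ℝ E]
variable {G : ℕ → Prop} {m : ℕ → E} {ε θ c c' : ℝ} {F : Finset ℕ} {n K L : ℕ} {Bd : ℕ → Finset ℕ}

open Classical in
/-- Most modes are small: the scales which are not too large. -/
theorem core_fwd (hc : 0 < c) (hc' : 0 < c') (hK : 2 ≤ c ^ 2 * (K + 1)) (hn : 0 < n)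
    (hL : 0 < L) (hML : K.factorial ≤ L) (hGn : ∀ i, G i → i < n)
    (C1 : ∀ i i', G i → G i' → θ < ((nb F n i ∩ nb F n i').card : ℝ) → ‖m i - m i'‖ ≤ 4 * ε)
    (C2 : ∀ i, G i → G (i + 1) → ‖m i - m (i + 1)‖ ≤ 4 * ε)
    (C3 : ∀ i y, G i → G y → i + y ∈ F → y ∉ Bd i → ‖m i + m y‖ ≤ 3 * ε)
    (hBd : ∀ i, G i → ((Bd i).card : ℝ) ≤ c' * L / 4)
    (hN : ∀ j < n, c * n ≤ ((nb F n j).card : ℝ))
    (hF : ∀ x, x + L + 1 ≤ 2 * n → c' * L ≤ ((nb F L x).card : ℝ))
    (hLn : (L : ℝ) + θ < c ^ 2 / 2 * n) (he : 0 ≤ ε) :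
    (((range n).filter (fun i => i + 2 * L ≤ n ∧
      (¬ G i ∨ (4 * K.factorial + 2) * ε < ‖m i‖))).card : ℝ) ≤
      (1 + 4 / c' * (2 * K.factorial + 2)) * (((range n).filter (fun i => ¬ G i)).card : ℝ) := by
  set M := K.factorial with hM
  have hM0 : 0 < M := Nat.factorial_pos K
  have hLR : (0 : ℝ) < L := by exact_mod_cast hL
  set X := (range n).filter (fun i => ¬ G i) with hX
  set Y := (range n).filter (fun i => i + 2 * L ≤ n ∧
      c' * L / 4 < (((range L).filter (fun e => BadP G M i e)).card : ℝ)) with hY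
  have hYc : (Y.card : ℝ) ≤ 4 / c' * (2 * M + 2) * X.card := by
    have h2 := badY (G := G) (n := n) (M := M) (L := L) hML (θ := c' * L / 4)
    have h3 : c' * L / 4 * (Y.card : ℝ) ≤ L * ((2 * M + 2) * X.card) := h2
    have h4 : (L : ℝ) * (c' / 4 * (Y.card : ℝ)) ≤ L * ((2 * M + 2) * X.card) := by linarith
    have h5 := le_of_mul_le_mul_left h4 hLR
    have h6 : (Y.card : ℝ) = 4 / c' * (c' / 4 * (Y.card : ℝ)) := by field_simp
    rw [h6, mul_assoc]
    exact mul_le_mul_of_nonneg_left h5 (by positivity)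
  have hsub : (range n).filter (fun i => i + 2 * L ≤ n ∧
      (¬ G i ∨ (4 * M + 2) * ε < ‖m i‖)) ⊆ X ∪ Y := by
    intro i hi
    rw [mem_filter, mem_range] at hi
    obtain ⟨hin, hiL, hb⟩ := hi
    rw [mem_union]
    by_cases hG : G i
    swap
    · left; rw [hX, mem_filter, mem_range]; exact ⟨hin, hG⟩
    right
    have hb' : (4 * M + 2) * ε < ‖m i‖ := by
      rcases hb with h | h
      · exact absurd hG h
      · exact h
    rw [hY, mem_filter, mem_range]
    refine ⟨hin, hiL, ?_⟩
    by_contra hcon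
    rw [not_lt] at hcon
    -- a partner which is not bad
    have hex : ∃ e ∈ nb F L (2 * i), ¬ BadP G M i e ∧ i + e ∉ Bd i := by
      by_contra hcc
      push Not at hcc
      have h2 : nb F L (2 * i) ⊆ (range L).filter (fun e => BadP G M i e) ∪
          (range n).filter (fun e => e + i ∈ Bd i) := by
        intro e hee
        have he' := hee
        rw [mem_nb] at he'
        rw [mem_union, mem_filter, mem_filter, mem_range, mem_range]
        by_cases hbb : BadP G M i e
        · exact Or.inl ⟨he'.1, hbb⟩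
        · right
          refine ⟨by omega, ?_⟩
          rw [add_comm]
          exact hcc e hee hbb
      have h3 := (card_le_card h2).trans (card_union_le _ _)
      have h4 := shift_exc (Bd i) n i
      have h5 : ((nb F L (2 * i)).card : ℝ) ≤
          (((range L).filter (fun e => BadP G M i e)).card : ℝ) + ((Bd i).card : ℝ) := by
        exact_mod_cast h3.trans (Nat.add_le_add_left h4 _)
      have h6 := hF (2 * i) (by omega)
      have h7 := hBd i hG
      have h8 : 0 < c' * L := by positivity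
      linarith
    obtain ⟨e, hee, hbe, hbd⟩ := hex
    rw [mem_nb] at hee
    have hbe' := hbe
    unfold BadP at hbe'
    push Not at hbe'
    have g2 : G (i + e) := by
      have h2 := hbe'.2 (e % M) (Nat.mod_lt _ hM0).le
      rwa [add_assoc, Nat.div_add_mod] at h2
    have hMe : M * (e / M) ≤ e := Nat.mul_div_le e M
    have k1 := mul_close (L := L) hc hK hn hGn C1 hN hbe'.1
      (show K.factorial * (e / M) ≤ L from le_trans hMe hee.1.le) hLn he
    have hs : e % M ≤ M := (Nat.mod_lt _ hM0).le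
    have k2 := run_close C2 (i := i + M * (e / M)) (e % M)
      (fun s' hs' => hbe'.2 s' (le_trans hs' hs))
    have e1 : i + M * (e / M) + e % M = i + e := by
      rw [add_assoc, Nat.div_add_mod]
    rw [e1] at k2
    have k3 : ((e % M : ℕ) : ℝ) ≤ M := by exact_mod_cast hs
    have k4 : 4 * ((e % M : ℕ) : ℝ) * ε ≤ 4 * M * ε := by
      have := mul_le_mul_of_nonneg_right k3 he
      linarith
    have k5 := C3 i (i + e) hG g2 (by rw [← add_assoc, ← two_mul]; exact hee.2) hbd
    have e4 : (2 : ℝ) • m i = ((m i - m (i + M * (e / M))) + (m (i + M * (e / M)) - m (i + e))) +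
        (m i + m (i + e)) := by
      rw [two_smul]; abel
    have e5 : ‖(2 : ℝ) • m i‖ = 2 * ‖m i‖ := by rw [norm_smul]; norm_num
    have e6 := norm_add_le ((m i - m (i + M * (e / M))) + (m (i + M * (e / M)) - m (i + e)))
      (m i + m (i + e))
    have e7 := norm_add_le (m i - m (i + M * (e / M))) (m (i + M * (e / M)) - m (i + e))
    rw [← e4, e5] at e6
    nlinarith
  calc (((range n).filter (fun i => i + 2 * L ≤ n ∧
      (¬ G i ∨ (4 * M + 2) * ε < ‖m i‖))).card : ℝ) ≤ ((X ∪ Y).card : ℝ) := by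
        exact_mod_cast card_le_card hsub
    _ ≤ X.card + Y.card := by exact_mod_cast card_union_le _ _
    _ ≤ _ := by linarith

/-- The reversed set of sums. -/
def rev (F : Finset ℕ) (n : ℕ) : Finset ℕ := (range (2 * n)).filter (fun x =>
  x + 2 ≤ 2 * n ∧ 2 * n - 2 - x ∈ F)

lemma mem_rev {x : ℕ} : x ∈ rev F n ↔ x + 2 ≤ 2 * n ∧ 2 * n - 2 - x ∈ F := by
  rw [rev, mem_filter, mem_range]
  constructor
  · exact fun h => h.2
  · exact fun h => ⟨by omega, h⟩

lemma nb_rev {x : ℕ} (hx : x < n) : nb (rev F n) n x = (nb F n (n - 1 - x)).image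
    (fun y => n - 1 - y) := by
  ext y
  rw [mem_nb, mem_rev, mem_image]
  constructor
  · rintro ⟨h1, h2, h3⟩
    refine ⟨n - 1 - y, ?_, by omega⟩
    rw [mem_nb]
    refine ⟨by omega, ?_⟩
    have : n - 1 - x + (n - 1 - y) = 2 * n - 2 - (x + y) := by omega
    rw [this]; exact h3
  · rintro ⟨z, hz, rfl⟩
    rw [mem_nb] at hz
    refine ⟨by omega, by omega, ?_⟩
    have : 2 * n - 2 - (x + (n - 1 - z)) = n - 1 - x + z := by omega
    rw [this]; exact hz.2

lemma inj_rev (A : Finset ℕ) (hA : ∀ y ∈ A, y < n) :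
    (A.image (fun y => n - 1 - y)).card = A.card := by
  refine card_image_of_injOn fun a ha b hb hab => ?_
  have h1 := hA a ha
  have h2 := hA b hb
  have hab' : n - 1 - a = n - 1 - b := hab
  omega

lemma nb_rev_card {x : ℕ} (hx : x < n) :
    (nb (rev F n) n x).card = (nb F n (n - 1 - x)).card := by
  rw [nb_rev hx]
  exact inj_rev _ fun y hy => (mem_nb.mp hy).1

lemma nb_rev_inter {x x' : ℕ} (hx : x < n) (hx' : x' < n) :
    (nb (rev F n) n x ∩ nb (rev F n) n x').card =
      (nb F n (n - 1 - x) ∩ nb F n (n - 1 - x')).card := by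
  rw [nb_rev hx, nb_rev hx', ← inj_rev (n := n) (nb F n (n - 1 - x) ∩ nb F n (n - 1 - x'))
    (fun y hy => (mem_nb.mp (mem_inter.mp hy).1).1)]
  congr 1
  ext z
  rw [mem_inter, mem_image, mem_image, mem_image]
  constructor
  · rintro ⟨⟨a, ha, h1⟩, ⟨b, hb, h2⟩⟩
    refine ⟨a, ?_, h1⟩
    have ha' := (mem_nb.mp ha).1
    have hb' := (mem_nb.mp hb).1
    have : a = b := by omega
    rw [mem_inter]
    exact ⟨ha, this ▸ hb⟩
  · rintro ⟨a, ha, h1⟩
    rw [mem_inter] at ha
    exact ⟨⟨a, ha.1, h1⟩, ⟨a, ha.2, h1⟩⟩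

lemma nb_rev_block {x : ℕ} (hx : x + L + 1 ≤ 2 * n) :
    (nb (rev F n) L x).card = (nb F L (2 * n - 1 - x - L)).card := by
  refine card_bij (fun y _ => L - 1 - y) ?_ ?_ ?_
  · intro y hy
    rw [mem_nb, mem_rev] at hy
    rw [mem_nb]
    refine ⟨by omega, ?_⟩
    have : 2 * n - 1 - x - L + (L - 1 - y) = 2 * n - 2 - (x + y) := by omega
    rw [this]; exact hy.2.2
  · intro a ha b hb hab
    rw [mem_nb] at ha hb
    have hab' : L - 1 - a = L - 1 - b := hab
    omega
  · intro z hz
    rw [mem_nb] at hz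
    refine ⟨L - 1 - z, ?_, by omega⟩
    rw [mem_nb, mem_rev]
    refine ⟨by omega, by omega, ?_⟩
    have : 2 * n - 2 - (x + (L - 1 - z)) = 2 * n - 1 - x - L + z := by omega
    rw [this]; exact hz.2

open Classical in
/-- **The core.** Most modes are small. -/
theorem core (hc : 0 < c) (hc' : 0 < c') (hK : 2 ≤ c ^ 2 * (K + 1)) (hn : 0 < n)
    (hL : 0 < L) (hML : K.factorial ≤ L) (h4L : 4 * L ≤ n) (hGn : ∀ i, G i → i < n)
    (C1 : ∀ i i', G i → G i' → θ < ((nb F n i ∩ nb F n i').card : ℝ) → ‖m i - m i'‖ ≤ 4 * ε)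
    (C2 : ∀ i, G i → G (i + 1) → ‖m i - m (i + 1)‖ ≤ 4 * ε)
    (C3 : ∀ i y, G i → G y → i + y ∈ F → y ∉ Bd i → ‖m i + m y‖ ≤ 3 * ε)
    (hBd : ∀ i, G i → ((Bd i).card : ℝ) ≤ c' * L / 4)
    (hN : ∀ j < n, c * n ≤ ((nb F n j).card : ℝ))
    (hF : ∀ x, x + L + 1 ≤ 2 * n → c' * L ≤ ((nb F L x).card : ℝ))
    (hLn : (L : ℝ) + θ < c ^ 2 / 2 * n) (he : 0 ≤ ε) :
    (((range n).filter (fun i => ¬ G i ∨ (4 * K.factorial + 2) * ε < ‖m i‖)).card : ℝ) ≤
      2 * ((1 + 4 / c' * (2 * K.factorial + 2)) *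
        (((range n).filter (fun i => ¬ G i)).card : ℝ)) := by
  have h1 := core_fwd hc hc' hK hn hL hML hGn C1 C2 C3 hBd hN hF hLn he
  -- the reversed scales
  obtain ⟨G', hG'⟩ : ∃ G' : ℕ → Prop, ∀ i, G' i ↔ (i < n ∧ G (n - 1 - i)) :=
    ⟨_, fun _ => Iff.rfl⟩
  obtain ⟨m', hm'⟩ : ∃ m' : ℕ → E, ∀ i, m' i = m (n - 1 - i) := ⟨_, fun _ => rfl⟩
  set Bd' : ℕ → Finset ℕ := fun i => ((Bd (n - 1 - i)).filter (fun y => y < n)).image
    (fun y => n - 1 - y) with hBd'
  have h2 := core_fwd (G := G') (m := m') (Bd := Bd') (F := rev F n) (ε := ε) (θ := θ) (L := L)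
    hc hc' hK hn hL hML (fun i hi => ((hG' i).mp hi).1)
    (by
      intro i i' hi hi' hcard
      rw [hG'] at hi hi'
      rw [hm', hm']
      rw [nb_rev_inter hi.1 hi'.1] at hcard
      exact C1 _ _ hi.2 hi'.2 hcard)
    (by
      intro i hi hi'
      rw [hG'] at hi hi'
      rw [hm', hm']
      have e1 : n - 1 - i = (n - 1 - (i + 1)) + 1 := by
        have := hi'.1
        omega
      have e2 := C2 (n - 1 - (i + 1)) hi'.2 (by rw [← e1]; exact hi.2)
      rw [← e1] at e2
      rw [norm_sub_rev] at e2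
      exact e2)
    (by
      intro i y hi hy hiy hb
      rw [hG'] at hi hy
      rw [hm', hm']
      rw [mem_rev] at hiy
      have e1 : n - 1 - i + (n - 1 - y) = 2 * n - 2 - (i + y) := by
        have := hi.1
        have := hy.1
        omega
      refine C3 _ _ hi.2 hy.2 (by rw [e1]; exact hiy.2) fun hmem => hb ?_
      simp only [hBd']
      rw [mem_image]
      have hy1 := hy.1
      refine ⟨n - 1 - y, ?_, by omega⟩
      rw [mem_filter]
      exact ⟨hmem, by omega⟩)
    (by
      intro i hi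
      rw [hG'] at hi
      refine le_trans ?_ (hBd _ hi.2)
      have : (Bd' i).card ≤ (Bd (n - 1 - i)).card :=
        card_image_le.trans (card_le_card (filter_subset _ _))
      exact_mod_cast this)
    (by
      intro j hj
      rw [nb_rev_card hj]
      exact hN _ (by omega))
    (by
      intro x hx
      rw [nb_rev_block hx]
      exact hF _ (by omega))
    hLn he
  have h3 : ((range n).filter (fun i => ¬ G' i)).card = ((range n).filter (fun i => ¬ G i)).card := by
    refine card_bij (fun i _ => n - 1 - i) ?_ ?_ ?_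
    · intro i hi
      rw [mem_filter, mem_range] at hi
      rw [mem_filter, mem_range]
      exact ⟨by omega, fun hg => hi.2 ((hG' i).mpr ⟨hi.1, hg⟩)⟩
    · intro a ha b hb hab
      rw [mem_filter, mem_range] at ha hb
      have hab' : n - 1 - a = n - 1 - b := hab
      omega
    · intro z hz
      rw [mem_filter, mem_range] at hz
      refine ⟨n - 1 - z, ?_, by omega⟩
      rw [mem_filter, mem_range]
      refine ⟨by omega, fun hg => hz.2 ?_⟩
      have : n - 1 - (n - 1 - z) = z := by omega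
      rw [← this]; exact ((hG' _).mp hg).2
  rw [h3] at h2
  -- union
  have h4 : (range n).filter (fun i => ¬ G i ∨ (4 * K.factorial + 2) * ε < ‖m i‖) ⊆
      (range n).filter (fun i => i + 2 * L ≤ n ∧
        (¬ G i ∨ (4 * K.factorial + 2) * ε < ‖m i‖)) ∪
      ((range n).filter (fun i => i + 2 * L ≤ n ∧
        (¬ G' i ∨ (4 * K.factorial + 2) * ε < ‖m' i‖))).image (fun i => n - 1 - i) := by
    intro i hi
    rw [mem_filter, mem_range] at hi
    rw [mem_union, mem_filter, mem_range, mem_image]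
    by_cases hiL : i + 2 * L ≤ n
    · exact Or.inl ⟨hi.1, hiL, hi.2⟩
    · right
      refine ⟨n - 1 - i, ?_, by omega⟩
      have e1 : n - 1 - (n - 1 - i) = i := by omega
      rw [mem_filter, mem_range]
      refine ⟨by omega, by omega, ?_⟩
      rw [hm', e1]
      rcases hi.2 with h | h
      · exact Or.inl fun hg => h (by have := ((hG' _).mp hg).2; rwa [e1] at this)
      · exact Or.inr h
  have h5 := (card_le_card h4).trans ((card_union_le _ _).trans
    (Nat.add_le_add_left card_image_le _))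
  have h6 : (((range n).filter (fun i => ¬ G i ∨ (4 * K.factorial + 2) * ε < ‖m i‖)).card : ℝ) ≤
      (((range n).filter (fun i => i + 2 * L ≤ n ∧
        (¬ G i ∨ (4 * K.factorial + 2) * ε < ‖m i‖))).card : ℝ) +
      (((range n).filter (fun i => i + 2 * L ≤ n ∧
        (¬ G' i ∨ (4 * K.factorial + 2) * ε < ‖m' i‖))).card : ℝ) := by exact_mod_cast h5
  linarith

end Main

end Pool.OCM.Core
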