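import Pool.Agent.H98.OCM.Stmts
import Pool.Agent.H79.OCM.Core

/-!
# Row ONE of theorem OCM as typed in `H98/OCM/Stmts.lean`
-/

set_option autoImplicit false

namespace Pool.OCM.OneS

open Finset Pool.OCM
open Pool.STK (IsLaw)
open Pool.KAF (Pr)

open Classical in
lemma pr_ms {S : Type} [Fintype S] (p : S → ℝ) (s : S → Prop) : Pr p {a | s a} = ms p s := by
  unfold Pool.KAF.Pr Pool.Agent.H49.Ent.law ms
  refine sum_congr rfl fun a _ => ?_
  by_cases h : s a <;> simp [h]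

open Classical in
/-- The mass of the bad pairs as a double sum. -/
lemma beta_eq {S : Type} [Fintype S] (P : ℕ → S → ℝ) (φ : S → ℝ) (ε : ℝ) (i j : ℕ) :
    beta P φ ε i j = ∑ a, ∑ b, (if ε < |φ a + φ b| then P i a * P j b else 0) := by
  unfold beta ms
  rw [sum_comm]
  refine sum_congr rfl fun b _ => ?_
  rw [mul_sum]
  refine sum_congr rfl fun a _ => ?_
  simp only [Real.norm_eq_abs]
  split_ifs
  · ring
  · simp

open Classical in
lemma beta_symm {S : Type} [Fintype S] (P : ℕ → S → ℝ) (φ : S → ℝ) (ε : ℝ) (i j : ℕ) :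
    beta P φ ε i j = beta P φ ε j i := by
  rw [beta_eq, beta_eq, sum_comm]
  refine sum_congr rfl fun b _ => sum_congr rfl fun a _ => ?_
  rw [add_comm (φ a), mul_comm]

lemma beta_le_one {S : Type} [Fintype S] {P : ℕ → S → ℝ} (φ : S → ℝ) (ε : ℝ) {i j : ℕ}
    (hi : ∀ t, 0 ≤ P i t) (hi1 : ∑ t, P i t = 1) (hj : ∀ t, 0 ≤ P j t) (hj1 : ∑ t, P j t = 1) :
    beta P φ ε i j ≤ 1 := by
  unfold beta
  rw [← hj1]
  refine sum_le_sum fun b _ => ?_
  have := ms_le_one hi hi1 (fun a => ε < ‖φ a + φ b‖)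
  have h2 := hj b
  nlinarith

/-- Density of a set of sums from the density of a set of depths. -/
lemma dens {J : Set ℕ} {F : Finset ℕ} {r n s₀ n' h : ℕ} {c : ℝ} (hn : 2 * n ≤ r) (hs : 1 ≤ s₀)
    (hsn : s₀ ≤ n) (hn' : n' = n - s₀) (hF : ∀ x, x < 2 * n' → r - (x + 2 * s₀) ∈ J → x ∈ F)
    (hJ : HF J (r - 2 * n) (2 * n) h c) (x : ℕ) (hx : x + h ≤ 2 * n') :
    c * h ≤ ((nb F h x).card : ℝ) := by
  rcases Nat.eq_zero_or_pos h with h0 | h0
  · subst h0; simp
  have h1 := hJ (r - x - 2 * s₀ - h + 1) (by omega) (by omega)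
  refine h1.trans ?_
  have h2 : Set.ncard {j | j ∈ J ∧ r - x - 2 * s₀ - h + 1 ≤ j ∧ j < r - x - 2 * s₀ - h + 1 + h} ≤
      (nb F h x).card := by
    have h3 : ((fun y => r - x - 2 * s₀ - y) '' {j | j ∈ J ∧ r - x - 2 * s₀ - h + 1 ≤ j ∧
        j < r - x - 2 * s₀ - h + 1 + h}) ⊆ ((nb F h x : Finset ℕ) : Set ℕ) := by
      rintro _ ⟨j, ⟨hj, hj1, hj2⟩, rfl⟩
      simp only [mem_coe, mem_nb]
      refine ⟨by omega, hF _ (by omega) ?_⟩
      have : r - (x + (r - x - 2 * s₀ - j) + 2 * s₀) = j := by omega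
      rw [this]; exact hj
    have h4 : Set.InjOn (fun y => r - x - 2 * s₀ - y) {j | j ∈ J ∧
        r - x - 2 * s₀ - h + 1 ≤ j ∧ j < r - x - 2 * s₀ - h + 1 + h} := by
      rintro a ⟨_, ha1, ha2⟩ b ⟨_, hb1, hb2⟩ hab
      have hab' : r - x - 2 * s₀ - a = r - x - 2 * s₀ - b := hab
      omega
    rw [← h4.ncard_image, ← Set.ncard_coe_finset]
    exact Set.ncard_le_ncard h3 (Finset.finite_toSet _)
  exact_mod_cast h2

lemma nb_sub {F F' : Finset ℕ} (h : F ⊆ F') (n x : ℕ) : nb F n x ⊆ nb F' n x := by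
  intro y hy
  rw [mem_nb] at *
  exact ⟨hy.1, h hy.2⟩

open Classical in
/-- The total mass of the bad pairs, over all pairs of scales. -/
lemma total {S : Type} [Fintype S] {q : ℕ → S → ℝ} {φ : S → ℝ} {ε₀ δ : ℝ} {n s₀ n' r gap : ℕ}
    {Act : Set ℕ} {F : Finset ℕ} (hq : ∀ e, IsLaw (q e)) (hn' : n' = n - s₀)
    (hF : ∀ x ∈ F, r - (x + 2 * s₀) ∈ Act)
    (h : ∑ e ∈ Finset.Ico s₀ n, ∑ e' ∈ Finset.Ico s₀ n,
        (if r - e - e' ∈ Act ∧ e' + gap ≤ e then
          ∑ a, ∑ b, (if ε₀ < |φ a + φ b| then q e a * q e' b else 0) else 0) ≤ δ) :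
    ∑ i ∈ range n', ∑ j ∈ range n',
      (if i + j ∈ F then beta (fun i => q (s₀ + i)) φ ε₀ i j else 0) ≤ 2 * δ + 2 * gap * n' := by
  set P : ℕ → S → ℝ := fun i => q (s₀ + i) with hP
  have hP0 : ∀ i t, 0 ≤ P i t := fun i t => (hq _).nonneg t
  have hP1 : ∀ i, ∑ t, P i t = 1 := fun i => (hq _).sum_one
  set T : ℕ → ℕ → ℝ := fun i j => if r - (s₀ + i) - (s₀ + j) ∈ Act ∧ s₀ + j + gap ≤ s₀ + i then
    beta P φ ε₀ i j else 0 with hT
  have h1 : ∑ i ∈ range n', ∑ j ∈ range n', T i j ≤ δ := by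
    refine le_of_eq_of_le ?_ h
    rw [sum_Ico_eq_sum_range, ← hn']
    refine sum_congr rfl fun i _ => ?_
    rw [sum_Ico_eq_sum_range, ← hn']
    refine sum_congr rfl fun j _ => ?_
    simp only [hT]
    rw [beta_eq]
  have hT0 : ∀ i j, 0 ≤ T i j := by
    intro i j
    simp only [hT]
    split_ifs
    · exact beta_nonneg (hP0 i) (hP0 j)
    · exact le_refl _
  have h2 : ∀ i ∈ range n', ∀ j ∈ range n', (if i + j ∈ F then beta P φ ε₀ i j else 0) ≤
      T i j + T j i + (if j < i + gap ∧ i < j + gap then (1 : ℝ) else 0) := by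
    intro i _ j _
    by_cases hij : i + j ∈ F
    swap
    · rw [if_neg hij]
      have a1 := hT0 i j
      have a2 := hT0 j i
      have a3 : (0 : ℝ) ≤ (if j < i + gap ∧ i < j + gap then (1 : ℝ) else 0) := by
        split_ifs <;> norm_num
      linarith
    rw [if_pos hij]
    have hA := hF _ hij
    have e1 : r - (s₀ + i) - (s₀ + j) = r - (i + j + 2 * s₀) := by omega
    have e2 : r - (s₀ + j) - (s₀ + i) = r - (i + j + 2 * s₀) := by omega
    by_cases c1 : j + gap ≤ i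
    · have : T i j = beta P φ ε₀ i j := by
        simp only [hT]
        rw [if_pos ⟨by rw [e1]; exact hA, by omega⟩]
      have a2 := hT0 j i
      have a3 : (0 : ℝ) ≤ (if j < i + gap ∧ i < j + gap then (1 : ℝ) else 0) := by
        split_ifs <;> norm_num
      linarith
    by_cases c2 : i + gap ≤ j
    · have : T j i = beta P φ ε₀ i j := by
        simp only [hT]
        rw [if_pos ⟨by rw [e2]; exact hA, by omega⟩, beta_symm]
      have a2 := hT0 i j
      have a3 : (0 : ℝ) ≤ (if j < i + gap ∧ i < j + gap then (1 : ℝ) else 0) := by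
        split_ifs <;> norm_num
      linarith
    rw [if_pos ⟨by omega, by omega⟩]
    have a1 := hT0 i j
    have a2 := hT0 j i
    have a3 := beta_le_one φ ε₀ (hP0 i) (hP1 i) (hP0 j) (hP1 j)
    linarith
  have h3 : ∑ i ∈ range n', ∑ j ∈ range n',
      (if j < i + gap ∧ i < j + gap then (1 : ℝ) else 0) ≤ 2 * gap * n' := by
    have : ∀ i ∈ range n', ∑ j ∈ range n', (if j < i + gap ∧ i < j + gap then (1 : ℝ) else 0) ≤
        2 * gap := by
      intro i _
      rw [← sum_filter, sum_const, nsmul_eq_mul, mul_one]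
      have h4 : (range n').filter (fun j => j < i + gap ∧ i < j + gap) ⊆
          Ico (i + 1 - gap) (i + gap) := by
        intro j hj
        rw [mem_filter] at hj
        rw [mem_Ico]
        omega
      have h5 := card_le_card h4
      rw [Nat.card_Ico] at h5
      have h6 : ((range n').filter (fun j => j < i + gap ∧ i < j + gap)).card ≤ 2 * gap := by
        omega
      exact_mod_cast h6
    calc _ ≤ ∑ _i ∈ range n', (2 * gap : ℝ) := sum_le_sum this
      _ = _ := by rw [sum_const, card_range, nsmul_eq_mul]; ring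
  calc ∑ i ∈ range n', ∑ j ∈ range n', (if i + j ∈ F then beta P φ ε₀ i j else 0)
      ≤ ∑ i ∈ range n', ∑ j ∈ range n',
        (T i j + T j i + (if j < i + gap ∧ i < j + gap then (1 : ℝ) else 0)) :=
        sum_le_sum fun i hi => sum_le_sum fun j hj => h2 i hi j hj
    _ = ∑ i ∈ range n', ∑ j ∈ range n', T i j + ∑ i ∈ range n', ∑ j ∈ range n', T j i +
        ∑ i ∈ range n', ∑ j ∈ range n',
          (if j < i + gap ∧ i < j + gap then (1 : ℝ) else 0) := by
        simp_rw [sum_add_distrib]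
    _ ≤ δ + δ + 2 * gap * n' := by
        have h4 : ∑ i ∈ range n', ∑ j ∈ range n', T j i =
            ∑ i ∈ range n', ∑ j ∈ range n', T i j := sum_comm
        rw [h4]
        linarith
    _ = _ := by ring

open Classical in
theorem one_stmt : ONEStmt := by
  intro c₂ hc₂
  set c : ℝ := c₂ / 2 with hcdef
  have hc : 0 < c := by positivity
  set K : ℕ := ⌈2 / c ^ 2⌉₊ with hKdef
  have hK : 2 ≤ c ^ 2 * ((K : ℝ) + 1) := by
    have h1 : 2 / c ^ 2 ≤ K := Nat.le_ceil _
    rw [div_le_iff₀ (by positivity)] at h1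
    nlinarith [sq_nonneg c]
  set M : ℕ := K.factorial with hM
  have hM0 : 0 < M := Nat.factorial_pos K
  have hMR : (0 : ℝ) < M := by exact_mod_cast hM0
  set η : ℝ := min (1 / 16) (c ^ 2 / 32) with hη
  have hη0 : 0 < η := lt_min (by norm_num) (by positivity)
  have hη1 : η ≤ 1 / 16 := min_le_left _ _
  have hη2 : η ≤ c ^ 2 / 32 := min_le_right _ _
  refine ⟨η, 4 * M + 3, hη0, by positivity, ?_⟩
  intro ε₁ hε₁
  set B : ℝ := 2 * (1 + 4 / c₂ * (2 * M + 2)) with hB
  have hB0 : 0 < B := by positivity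
  obtain ⟨d, hd0, hd1, hd2, hd3, hd4, hd5⟩ : ∃ d : ℝ, 0 < d ∧ d ≤ 1 / 8 ∧ d ≤ ε₁ / 4 ∧
      d ≤ c ^ 2 / 16 ∧ d ≤ c / 4 ∧ d ≤ c₂ * η / 4 := by
    refine ⟨min (1 / 8) (min (ε₁ / 4) (min (c ^ 2 / 16) (min (c / 4) (c₂ * η / 4)))), ?_, ?_⟩
    · have h1 : 0 < c₂ * η / 4 := by positivity
      have h2 : 0 < c ^ 2 / 16 := by positivity
      exact lt_min (by norm_num) (lt_min (by positivity) (lt_min h2 (lt_min (by positivity) h1)))
    · exact ⟨min_le_left _ _, (min_le_right _ _).trans (min_le_left _ _),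
        (min_le_right _ _).trans ((min_le_right _ _).trans (min_le_left _ _)),
        (min_le_right _ _).trans ((min_le_right _ _).trans ((min_le_right _ _).trans
          (min_le_left _ _))),
        (min_le_right _ _).trans ((min_le_right _ _).trans ((min_le_right _ _).trans
          (min_le_right _ _)))⟩
  refine ⟨ε₁ * d ^ 2 / (16 * B), by positivity, ?_⟩
  intro gap
  refine ⟨⌈16 * B * gap / (d ^ 2 * ε₁)⌉₊ + ⌈M / η⌉₊ + 16, ?_⟩
  intro n r h Act S _ q φ ε₀ hn hh1 hh hr hε₀ hq hHF hsum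
  -- sizes
  set s₀ : ℕ := n / 4 with hs₀
  set n' : ℕ := n - s₀ with hn'
  have hn16 : 16 ≤ n := by omega
  have hs1 : 1 ≤ s₀ := by omega
  have hsn : s₀ ≤ n := by omega
  have hn'1 : n ≤ 2 * n' := by omega
  have hn'2 : n' ≤ n := by omega
  have hn'0 : 0 < n' := by omega
  have hnR : (0 : ℝ) < n := by exact_mod_cast (by omega : 0 < n)
  have hn'R : (0 : ℝ) < n' := by exact_mod_cast hn'0
  have hn'1R : (n : ℝ) ≤ 2 * n' := by exact_mod_cast hn'1
  have hn'2R : (n' : ℝ) ≤ n := by exact_mod_cast hn'2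
  have hgap : 16 * B * gap / (d ^ 2 * ε₁) ≤ n := by
    refine (Nat.le_ceil _).trans ?_
    exact_mod_cast (by omega : ⌈16 * B * gap / (d ^ 2 * ε₁)⌉₊ ≤ n)
  have hMn : (M : ℝ) ≤ η * n := by
    have h1 : (M : ℝ) / η ≤ n := by
      refine (Nat.le_ceil _).trans ?_
      exact_mod_cast (by omega : ⌈(M : ℝ) / η⌉₊ ≤ n)
    rw [div_le_iff₀ hη0] at h1
    linarith
  -- the length of the blocks
  have hhR : (1 : ℝ) ≤ h := by exact_mod_cast hh1
  set k : ℕ := ⌊2 * η * n / h⌋₊ with hk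
  set L : ℕ := k * h with hL
  have hk1 : (k : ℝ) ≤ 2 * η * n / h := Nat.floor_le (by positivity)
  have hk2 : 2 * η * n / h < k + 1 := Nat.lt_floor_add_one _
  have hL1 : (L : ℝ) ≤ 2 * η * n := by
    rw [hL]; push_cast
    rw [le_div_iff₀ (by linarith)] at hk1
    exact hk1
  have hL2 : η * n ≤ (L : ℝ) := by
    rw [hL]; push_cast
    rw [div_lt_iff₀ (by linarith)] at hk2
    nlinarith
  have hML : M ≤ L := by
    have : (M : ℝ) ≤ L := hMn.trans hL2
    exact_mod_cast this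
  have hL0 : 0 < L := lt_of_lt_of_le hM0 hML
  have hLR : (0 : ℝ) < L := by exact_mod_cast hL0
  have h4L : 4 * L ≤ n' := by
    have h1 : (4 : ℝ) * L ≤ n / 2 := by nlinarith
    have h2 : (4 : ℝ) * L ≤ n' := by linarith
    exact_mod_cast h2
  have hhn : 2 * h ≤ n' := by
    have h1 : (2 : ℝ) * h ≤ n / 8 := by nlinarith
    have h2 : (2 : ℝ) * h ≤ n' := by linarith
    exact_mod_cast h2
  -- the sets of sums
  set F : Finset ℕ := (range (2 * n')).filter (fun x => r - (x + 2 * s₀) ∈ Act) with hF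
  set F₂ : Finset ℕ := (range (2 * n')).filter (fun x => r - (x + 2 * s₀) ∈ Act ∧
    r - (x + 2 * s₀) + 1 ∈ Act) with hF₂
  have hFF : F₂ ⊆ F := by
    intro x hx
    rw [hF₂, mem_filter] at hx
    rw [hF, mem_filter]
    exact ⟨hx.1, hx.2.1⟩
  have hdens : ∀ x, x + h ≤ 2 * n' → c₂ * h ≤ ((nb F₂ h x).card : ℝ) := by
    intro x hx
    refine dens (n := n) hr hs1 hsn hn' ?_ hHF x hx
    intro y hy hyJ
    rw [hF₂, mem_filter, mem_range]
    exact ⟨hy, hyJ⟩
  have hblk : ∀ x, x + L + 1 ≤ 2 * n' → c₂ * L ≤ ((nb F L x).card : ℝ) := by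
    intro x hx
    have h1 := nb_blocks (n := n') hdens k x (by omega)
    have h2 : ((nb F₂ (k * h) x).card : ℝ) ≤ ((nb F (k * h) x).card : ℝ) := by
      exact_mod_cast card_le_card (nb_sub hFF _ _)
    rw [hL]; push_cast
    linarith
  have hbig : ∀ j < n', c * n' ≤ ((nb F₂ n' j).card : ℝ) := by
    intro j hj
    have h0 : n' / h * h ≤ n' := Nat.div_mul_le_self n' h
    have h1 := nb_blocks (n := n') hdens (n' / h) j (by omega)
    have h2 : ((nb F₂ (n' / h * h) j).card : ℝ) ≤ ((nb F₂ n' j).card : ℝ) := by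
      exact_mod_cast card_le_card (nb_mono F₂ h0 j)
    have h3 : n' ≤ 2 * (n' / h * h) := by
      have h4 := Nat.div_add_mod n' h
      have h5 := Nat.mod_lt n' (by omega : 0 < h)
      have h6 : h * (n' / h) = n' / h * h := mul_comm _ _
      omega
    have h4 : (n' : ℝ) ≤ 2 * ((n' / h : ℕ) * h) := by exact_mod_cast h3
    calc c * n' ≤ c * (2 * ((n' / h : ℕ) * h)) := mul_le_mul_of_nonneg_left h4 hc.le
      _ = c₂ * ((n' / h : ℕ) * h) := by rw [hcdef]; ring
      _ ≤ _ := h1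
      _ ≤ _ := h2
  have hN : ∀ j < n', c * n' ≤ ((nb F n' j).card : ℝ) := by
    intro j hj
    refine (hbig j hj).trans ?_
    exact_mod_cast card_le_card (nb_sub hFF _ _)
  -- the laws
  set P : ℕ → S → ℝ := fun i => q (s₀ + i) with hP
  have hP0 : ∀ i t, 0 ≤ P i t := fun i t => (hq _).nonneg t
  have hP1 : ∀ i, ∑ t, P i t = 1 := fun i => (hq _).sum_one
  have htot := total (F := F) hq hn' (fun x hx => (mem_filter.mp hx).2) hsum
  -- good scales
  set Bd : ℕ → Finset ℕ := fun i => (nb F n' i).filter (fun j => d < beta P φ ε₀ i j) with hBd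
  obtain ⟨G, hG⟩ : ∃ G : ℕ → Prop, ∀ i, G i ↔ (i < n' ∧ ((Bd i).card : ℝ) ≤ d * n') :=
    ⟨_, fun _ => Iff.rfl⟩
  set X := (range n').filter (fun i => ¬ G i) with hX
  have hXc : (X.card : ℝ) * (d * (d * n')) ≤
      2 * (ε₁ * d ^ 2 / (16 * B) * n ^ 2) + 2 * gap * n' := by
    refine le_trans ?_ htot
    have h3 : ∀ i ∈ X, d * (d * n') ≤
        ∑ j ∈ range n', (if i + j ∈ F then beta P φ ε₀ i j else 0) := by
      intro i hi
      rw [hX, mem_filter, mem_range, hG] at hi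
      have hlt : d * n' < ((Bd i).card : ℝ) := by
        by_contra hcon
        exact hi.2 ⟨hi.1, not_lt.mp hcon⟩
      have h4 : ∑ j ∈ Bd i, d ≤ ∑ j ∈ Bd i, beta P φ ε₀ i j :=
        sum_le_sum fun j hj => by
          simp only [hBd] at hj
          rw [mem_filter] at hj
          exact hj.2.le
      have h5 : ∑ j ∈ Bd i, beta P φ ε₀ i j ≤ ∑ j ∈ nb F n' i, beta P φ ε₀ i j := by
        refine sum_le_sum_of_subset_of_nonneg (filter_subset _ _) fun j _ _ => ?_
        exact beta_nonneg (hP0 i) (hP0 j)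
      have h6 : ∑ j ∈ nb F n' i, beta P φ ε₀ i j =
          ∑ j ∈ range n', (if i + j ∈ F then beta P φ ε₀ i j else 0) := by
        rw [nb, sum_filter]
      rw [sum_const, nsmul_eq_mul] at h4
      rw [← h6]
      calc d * (d * n') ≤ d * ((Bd i).card : ℝ) := mul_le_mul_of_nonneg_left hlt.le hd0.le
        _ ≤ _ := by linarith
    calc (X.card : ℝ) * (d * (d * n')) = ∑ _i ∈ X, d * (d * n') := by simp
      _ ≤ ∑ i ∈ X, ∑ j ∈ range n', (if i + j ∈ F then beta P φ ε₀ i j else 0) := sum_le_sum h3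
      _ ≤ _ := by
        refine sum_le_sum_of_subset_of_nonneg (filter_subset _ _) fun i _ _ => ?_
        refine sum_nonneg fun j _ => ?_
        split_ifs
        · exact beta_nonneg (hP0 i) (hP0 j)
        · exact le_refl _
  have hXs : B * X.card ≤ ε₁ / 2 * n := by
    have h1 : 16 * B * gap ≤ n * (d ^ 2 * ε₁) := by
      rw [div_le_iff₀ (by positivity)] at hgap
      exact hgap
    have h2 : (X.card : ℝ) * (d ^ 2 * n') ≤
        2 * (ε₁ * d ^ 2 / (16 * B) * n ^ 2) + 2 * gap * n' := by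
      have : (X.card : ℝ) * (d ^ 2 * n') = (X.card : ℝ) * (d * (d * n')) := by ring
      rw [this]; exact hXc
    have h3 : B * (2 * (ε₁ * d ^ 2 / (16 * B) * n ^ 2) + 2 * gap * n') ≤
        ε₁ / 2 * n * (d ^ 2 * n') := by
      have e1 : B * (2 * (ε₁ * d ^ 2 / (16 * B) * n ^ 2)) = ε₁ * d ^ 2 / 8 * n * n := by
        field_simp
        ring
      have e2 : ε₁ * d ^ 2 / 8 * n * n ≤ ε₁ * d ^ 2 / 8 * n * (2 * n') :=
        mul_le_mul_of_nonneg_left hn'1R (by positivity)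
      have e3 : B * (2 * gap * n') = (16 * B * gap) * (n' / 8) := by ring
      have e4 : (16 * B * gap) * (n' / 8) ≤ n * (d ^ 2 * ε₁) * (n' / 8) :=
        mul_le_mul_of_nonneg_right h1 (by positivity)
      have e5 : 0 ≤ ε₁ * d ^ 2 * n * n' := by positivity
      calc B * (2 * (ε₁ * d ^ 2 / (16 * B) * n ^ 2) + 2 * gap * n')
          = B * (2 * (ε₁ * d ^ 2 / (16 * B) * n ^ 2)) + B * (2 * gap * n') := by ring
        _ ≤ ε₁ * d ^ 2 / 8 * n * (2 * n') + n * (d ^ 2 * ε₁) * (n' / 8) := by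
            rw [e1, e3]; exact add_le_add e2 e4
        _ ≤ _ := by linarith
    have h4 : B * X.card * (d ^ 2 * n') ≤ ε₁ / 2 * n * (d ^ 2 * n') := by
      calc B * X.card * (d ^ 2 * n') = B * ((X.card : ℝ) * (d ^ 2 * n')) := by ring
        _ ≤ _ := (mul_le_mul_of_nonneg_left h2 hB0.le).trans h3
    exact le_of_mul_le_mul_right h4 (by positivity)
  -- the modes
  have hmode : ∀ i, G i → ms (P i) (fun a => ε₀ < ‖φ a - md P φ ε₀ d i‖) ≤ d := by
    intro i hi
    rw [hG] at hi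
    refine md_spec ?_
    have h2 : ∃ j ∈ nb F n' i, beta P φ ε₀ i j ≤ d := by
      by_contra hcc
      push Not at hcc
      have h3 : nb F n' i ⊆ Bd i := by
        intro j hj
        simp only [hBd]
        rw [mem_filter]
        exact ⟨hj, hcc j hj⟩
      have h4 : ((nb F n' i).card : ℝ) ≤ ((Bd i).card : ℝ) := by exact_mod_cast card_le_card h3
      have h5 := hN i hi.1
      nlinarith [hi.2]
    obtain ⟨j, _, hb⟩ := h2
    exact mode (hP0 j) (hP1 j) hb
  have C1 : ∀ i i', G i → G i' → 2 * (d * n') < ((nb F n' i ∩ nb F n' i').card : ℝ) →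
      ‖md P φ ε₀ d i - md P φ ε₀ d i'‖ ≤ 4 * ε₀ := by
    intro i i' hi hi' hcard
    have h2 : ∃ j ∈ nb F n' i ∩ nb F n' i', beta P φ ε₀ i j ≤ d ∧ beta P φ ε₀ i' j ≤ d := by
      by_contra hcc
      push Not at hcc
      have h3 : nb F n' i ∩ nb F n' i' ⊆ Bd i ∪ Bd i' := by
        intro j hj
        have hj' := hj
        rw [mem_inter] at hj'
        simp only [hBd]
        rw [mem_union, mem_filter, mem_filter]
        by_cases hb : beta P φ ε₀ i j ≤ d
        · exact Or.inr ⟨hj'.2, hcc j hj hb⟩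
        · exact Or.inl ⟨hj'.1, not_le.mp hb⟩
      have h4 := (card_le_card h3).trans (card_union_le _ _)
      have h5 : ((nb F n' i ∩ nb F n' i').card : ℝ) ≤ ((Bd i).card : ℝ) + ((Bd i').card : ℝ) := by
        exact_mod_cast h4
      have h6 := ((hG i).mp hi).2
      have h7 := ((hG i').mp hi').2
      linarith
    obtain ⟨j, _, hb, hb'⟩ := h2
    exact mode_close (hP0 i) (hP1 i) (hP0 i') (hP1 i') (hP0 j) (hP1 j) (by linarith) hb hb'
      (hmode i hi) (hmode i' hi')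
  have C2 : ∀ i, G i → G (i + 1) →
      ‖md P φ ε₀ d i - md P φ ε₀ d (i + 1)‖ ≤ 4 * ε₀ := by
    intro i hi hi'
    refine C1 i (i + 1) hi hi' ?_
    have h1 : nb F₂ n' (i + 1) ⊆ nb F n' i ∩ nb F n' (i + 1) := by
      intro y hy
      rw [mem_nb] at hy
      have hy2 := hy.2
      rw [hF₂, mem_filter, mem_range] at hy2
      rw [mem_inter, mem_nb, mem_nb]
      refine ⟨⟨hy.1, ?_⟩, hy.1, hFF hy.2⟩
      rw [hF, mem_filter, mem_range]
      refine ⟨by omega, ?_⟩
      have : r - (i + y + 2 * s₀) = r - (i + 1 + y + 2 * s₀) + 1 := by omega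
      rw [this]; exact hy2.2.2
    have h2 : ((nb F₂ n' (i + 1)).card : ℝ) ≤ ((nb F n' i ∩ nb F n' (i + 1)).card : ℝ) := by
      exact_mod_cast card_le_card h1
    have h3 := hbig (i + 1) ((hG _).mp hi').1
    nlinarith
  have C3 : ∀ i y, G i → G y → i + y ∈ F → y ∉ Bd i →
      ‖md P φ ε₀ d i + md P φ ε₀ d y‖ ≤ 3 * ε₀ := by
    intro i y hi hy hiy hb
    have hbe : beta P φ ε₀ i y ≤ d := by
      by_contra hcon
      refine hb ?_
      simp only [hBd]
      rw [mem_filter, mem_nb]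
      exact ⟨⟨((hG y).mp hy).1, hiy⟩, not_le.mp hcon⟩
    exact mode_opp (hP0 i) (hP1 i) (hP0 y) (hP1 y) (by linarith) hbe (hmode i hi) (hmode y hy)
  have hBdc : ∀ i, G i → ((Bd i).card : ℝ) ≤ c₂ * L / 4 := by
    intro i hi
    refine ((hG i).mp hi).2.trans ?_
    have h1 : d * n' ≤ c₂ * η / 4 * n := mul_le_mul hd5 hn'2R hn'R.le (by positivity)
    nlinarith
  have hcore := Core.core (G := G) (m := fun i => md P φ ε₀ d i) (Bd := Bd) (F := F)
    (θ := 2 * (d * n')) (ε := ε₀) hc hc₂ hK hn'0 hL0 hML h4L (fun i hi => ((hG i).mp hi).1)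
    C1 C2 C3 hBdc hN hblk (by nlinarith) hε₀
  -- conclusion
  set W := (range n').filter (fun i => ¬ G i ∨ (4 * (K.factorial : ℝ) + 2) * ε₀ <
    ‖md P φ ε₀ d i‖) with hW
  have hWc : (W.card : ℝ) ≤ ε₁ / 2 * n := by
    refine hcore.trans ?_
    have : 2 * ((1 + 4 / c₂ * (2 * (K.factorial : ℝ) + 2)) * (X.card : ℝ)) = B * X.card := by
      rw [hB]; ring
    rw [this]; exact hXs
  rw [sum_Ico_eq_sum_range, ← hn']
  have hmain : ∀ i ∈ range n', Pr (q (s₀ + i)) {a | (4 * M + 3) * ε₀ < |φ a|} ≤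
      d + (if i ∈ W then 1 else 0) := by
    intro i hi
    rw [pr_ms]
    have hle1 := ms_le_one (hP0 i) (hP1 i) (fun a => (4 * M + 3) * ε₀ < |φ a|)
    by_cases hiW : i ∈ W
    · rw [if_pos hiW]
      have : ms (q (s₀ + i)) (fun a => (4 * M + 3) * ε₀ < |φ a|) ≤ 1 := hle1
      linarith
    rw [if_neg hiW, add_zero]
    rw [hW, mem_filter] at hiW
    push Not at hiW
    obtain ⟨hGi, hsm⟩ := hiW hi
    refine le_trans (ms_mono (hP0 i) fun a ha => ?_) (hmode i hGi)
    by_contra hcon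
    simp only [not_lt] at hcon
    have e1 : φ a = (φ a - md P φ ε₀ d i) + md P φ ε₀ d i := by abel
    rw [← Real.norm_eq_abs, e1] at ha
    have e2 := norm_add_le (φ a - md P φ ε₀ d i) (md P φ ε₀ d i)
    linarith
  calc ∑ i ∈ range n', Pr (q (s₀ + i)) {a | (4 * M + 3) * ε₀ < |φ a|}
      ≤ ∑ i ∈ range n', (d + (if i ∈ W then 1 else 0)) := sum_le_sum hmain
    _ = n' * d + W.card := by
      rw [sum_add_distrib, sum_ite_mem, inter_eq_right.mpr (filter_subset _ _), sum_const,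
        card_range, nsmul_eq_mul, sum_const, nsmul_eq_mul, mul_one]
    _ ≤ ε₁ * n := by
      have h1 : n' * d ≤ n * (ε₁ / 4) := mul_le_mul hn'2R hd2 hd0.le hnR.le
      have h2 : 0 < ε₁ * n := by positivity
      linarith

end Pool.OCM.OneS
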